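import Pool.Agent.MP_67f0e4_gt.D2.Spec

/-! The surface is connected. The cyclic group at infinity. -/

open Set

namespace Pool.Agent.MP_67f0e4_gt.D2

theorem conn_base : IsPreconnected (({0}ᶜ : Set ℂ) ×ˢ (univ : Set ℂ)) :=
  (isConnected_compl_singleton_of_one_lt_rank (by simp) 0).isPreconnected.prod isPreconnected_univ

theorem conn_cont (n : ℕ) :
    ContinuousOn (fun q : C2 => (q.2 ^ n - 1) / q.1) (({0}ᶜ : Set ℂ) ×ˢ (univ : Set ℂ)) :=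
  ContinuousOn.div (by fun_prop) (by fun_prop) fun _ h => h.1

theorem sconn : SCONN := by
  intro n hn
  have h0 : (0 : ℂ) ^ n = 0 := zero_pow (by omega)
  have hA := conn_base.image (fun q : C2 => ((q.1, (q.2 ^ n - 1) / q.1, q.2) : C3))
    (continuousOn_fst.prodMk ((conn_cont n).prodMk continuousOn_snd))
  have hB := conn_base.image (fun q : C2 => (((q.2 ^ n - 1) / q.1, q.1, q.2) : C3))
    ((conn_cont n).prodMk (continuousOn_fst.prodMk continuousOn_snd))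
  have sA : (fun q : C2 => ((q.1, (q.2 ^ n - 1) / q.1, q.2) : C3)) '' ({0}ᶜ ×ˢ univ) ⊆
      H.surf n := by
    rintro _ ⟨q, hq, rfl⟩
    exact mul_div_cancel₀ _ hq.1
  have bA : ((1, -1, 0) : C3) ∈ (fun q : C2 => ((q.1, (q.2 ^ n - 1) / q.1, q.2) : C3)) ''
      ({0}ᶜ ×ˢ univ) := ⟨(1, 0), ⟨one_ne_zero, trivial⟩, by simp [h0]⟩
  refine isConnected_iff_connectedSpace.1 ⟨⟨_, sA bA⟩, isPreconnected_of_forall (1, -1, 0) ?_⟩
  rintro ⟨x, y, z⟩ (hp : x * y = z ^ n - 1)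
  by_cases hy : y = 0
  · subst hy
    rw [mul_zero] at hp
    refine ⟨_ ∪ range fun t : ℂ => ((t, 0, z) : C3), union_subset sA ?_, Or.inl bA, Or.inr ⟨x, rfl⟩,
      hA.union (1, 0, z) ⟨(1, z), ⟨one_ne_zero, trivial⟩, by simp [← hp]⟩ ⟨1, rfl⟩
        (isPreconnected_range (by fun_prop))⟩
    rintro _ ⟨t, rfl⟩
    exact (mul_zero t).trans hp
  · refine ⟨_, ?_, ?_, ?_, hB⟩
    · rintro _ ⟨q, hq, rfl⟩
      exact div_mul_cancel₀ _ hq.1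
    · exact ⟨(-1, 0), ⟨neg_ne_zero.2 one_ne_zero, trivial⟩, by simp [h0]⟩
    · exact ⟨(y, z), ⟨hy, trivial⟩, by simp [← hp, hy]⟩

/-- The rotation by `ζ`. -/
noncomputable def conn_rot (ι : E4 ≃L[ℝ] C2) (hι : Iso ι) (ζ : ℂ) (h : Complex.normSq ζ = 1) :
    E4 ≃ₗᵢ[ℝ] E4 :=
  LinearIsometry.toLinearIsometryEquiv
    { toLinearMap := (ι.symm : C2 →ₗ[ℝ] E4) ∘ₗ
        ((LinearMap.mulLeft ℝ ζ).prodMap (LinearMap.mulLeft ℝ ζ⁻¹)) ∘ₗ (ι : E4 →ₗ[ℝ] C2)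
      norm_map' := fun v => by
        rw [← sq_eq_sq₀ (norm_nonneg _) (norm_nonneg _), hι, hι v]
        simp [h] } rfl

theorem conn_rot_apply (ι : E4 ≃L[ℝ] C2) (hι : Iso ι) (ζ : ℂ) (h : Complex.normSq ζ = 1) (v : E4) :
    ι (conn_rot ι hι ζ h v) = (ζ * (ι v).1, ζ⁻¹ * (ι v).2) :=
  ι.apply_symm_apply _

theorem conn_nsq {n : ℕ} [NeZero n] (ζ : rootsOfUnity n ℂ) : Complex.normSq (ζ : ℂˣ) = 1 := by
  rw [Complex.normSq_eq_norm_sq, Complex.norm_eq_one_of_pow_eq_one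
    ((mem_rootsOfUnity' n _).1 ζ.2) (NeZero.ne n), one_pow]

/-- The action of the roots of unity. -/
noncomputable def conn_hom (n : ℕ) [NeZero n] (ι : E4 ≃L[ℝ] C2) (hι : Iso ι) :
    rootsOfUnity n ℂ →* (E4 ≃ₗᵢ[ℝ] E4) :=
  MonoidHom.mk' (fun ζ => conn_rot ι hι (ζ : ℂˣ) (conn_nsq ζ)) fun ζ ξ =>
    LinearIsometryEquiv.ext fun v => ι.injective (by
      rw [LinearIsometryEquiv.coe_mul, Function.comp_apply, conn_rot_apply, conn_rot_apply,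
        conn_rot_apply, Subgroup.coe_mul, Units.val_mul, mul_inv, mul_assoc, mul_assoc])

theorem conn_free {n : ℕ} [NeZero n] {ι : E4 ≃L[ℝ] C2} (hι : Iso ι) {ζ : rootsOfUnity n ℂ} {v : E4}
    (hv : v ≠ 0) (e : conn_hom n ι hι ζ v = v) : ζ = 1 := by
  have h1 := (conn_rot_apply ι hι _ (conn_nsq ζ) v).symm.trans (congrArg ι e)
  by_contra h2
  have h3 : ((ζ : ℂˣ) : ℂ) ≠ 1 := fun q => h2 (Subtype.ext (Units.ext q))
  refine hv (ι.map_eq_zero_iff.1 (Prod.ext ?_ ?_))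
  · exact by_contra fun q => h3 ((mul_eq_right₀ q).1 (congrArg Prod.fst h1))
  · exact by_contra fun q => h3 (inv_eq_one.1 ((mul_eq_right₀ q).1 (congrArg Prod.snd h1)))

theorem sgam : SGAM := by
  intro n ι hn hι
  have : NeZero n := ⟨by omega⟩
  obtain ⟨v₀, h0⟩ := exists_ne (0 : E4)
  have h1 : Function.Injective (conn_hom n ι hι) :=
    (injective_iff_map_eq_one _).2 fun ζ e => conn_free hι h0 (by rw [e]; rfl)
  refine ⟨(conn_hom n ι hι).range, ?_, isCyclic_of_surjective _ (MonoidHom.ofInjective h1).surjective,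
    ?_, fun v w => ⟨?_, ?_⟩⟩
  · rw [← Nat.card_congr (MonoidHom.ofInjective h1).toEquiv, Complex.card_rootsOfUnity]
  · rintro _ ⟨ζ, rfl⟩ v hv e
    rw [conn_free hι (norm_ne_zero_iff.1 (by rw [hv]; exact one_ne_zero)) e, map_one]
  · rintro ⟨_, ⟨ζ, rfl⟩, rfl⟩
    exact ⟨(ζ : ℂˣ), (mem_rootsOfUnity' n _).1 ζ.2, conn_rot_apply ι hι _ (conn_nsq ζ) v⟩
  · rintro ⟨ζ, hζ, e⟩
    exact ⟨_, ⟨rootsOfUnity.mkOfPowEq ζ hζ, rfl⟩, ι.injective
      (e.trans (conn_rot_apply ι hι _ (conn_nsq (rootsOfUnity.mkOfPowEq ζ hζ)) v).symm)⟩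

end Pool.Agent.MP_67f0e4_gt.D2
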