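import Pool.Agent.MP_67f0e4_gt.D2.Spec

/-! Row DEC: decay of the metric in the chart at infinity. -/

open scoped ContDiff Topology
open Filter Set

namespace Pool.Agent.MP_67f0e4_gt.D2

noncomputable section

/-- Scaling as a continuous linear equivalence. -/
def dec_sc (c : ℝ) (hc : c ≠ 0) : E4 ≃L[ℝ] E4 :=
  ContinuousLinearEquiv.equivOfInverse (c • ContinuousLinearMap.id ℝ E4)
    (c⁻¹ • ContinuousLinearMap.id ℝ E4)
    (fun x => by simp [smul_smul, mul_inv_cancel₀ hc])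
    (fun x => by simp [smul_smul, inv_mul_cancel₀ hc])

theorem dec_scale (f : E4 → ℝ) (c : ℝ) (hc : 0 < c) (k : ℕ) (v : E4) :
    ‖iteratedFDeriv ℝ k (fun w => f (c • w)) v‖ ≤ ‖iteratedFDeriv ℝ k f (c • v)‖ * c ^ k := by
  have h := (dec_sc c hc.ne').iteratedFDerivWithin_comp_right f uniqueDiffOn_univ
    (x := v) (mem_univ _) k
  rw [preimage_univ, iteratedFDerivWithin_univ, iteratedFDerivWithin_univ] at h
  have e : (fun w => f (c • w)) = f ∘ dec_sc c hc.ne' := rfl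
  have e2 : dec_sc c hc.ne' v = c • v := rfl
  have e3 : ‖(dec_sc c hc.ne' : E4 →L[ℝ] E4)‖ ≤ c :=
    ContinuousLinearMap.opNorm_le_bound _ hc.le fun x => by
      have : (dec_sc c hc.ne' : E4 →L[ℝ] E4) x = c • x := rfl
      rw [this, norm_smul, Real.norm_of_nonneg hc.le]
  rw [e, h, e2]
  refine (ContinuousMultilinearMap.norm_compContinuousLinearMap_le _ _).trans ?_
  refine mul_le_mul_of_nonneg_left ?_ (norm_nonneg _)
  rw [Finset.prod_const, Finset.card_univ, Fintype.card_fin]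
  exact pow_le_pow_left₀ (norm_nonneg _) e3 k

/-- The Euclidean inner product as a bilinear form. -/
def dec_in : E4 →L[ℝ] E4 →L[ℝ] ℝ := innerSL ℝ

theorem dec_in_apply (a b : E4) : dec_in a b = inner ℝ a b := rfl

/-- The part of the unit sphere where the first coordinate dominates. -/
def dec_K (ι : E4 ≃L[ℝ] C2) : Set E4 := {v | ‖v‖ = 1 ∧ ‖(ι v).2‖ ≤ ‖(ι v).1‖}

theorem dec_compact (ι : E4 ≃L[ℝ] C2) : IsCompact (dec_K ι) := by
  have h1 : IsClosed {v : E4 | ‖(ι v).2‖ ≤ ‖(ι v).1‖} :=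
    isClosed_le (by fun_prop) (by fun_prop)
  have h2 : dec_K ι = Metric.sphere (0 : E4) 1 ∩ {v : E4 | ‖(ι v).2‖ ≤ ‖(ι v).1‖} := by
    ext v
    simp [dec_K]
  rw [h2]
  exact (isCompact_sphere _ _).inter_right h1

theorem dec_zero (n : ℕ) (ι : E4 ≃L[ℝ] C2) (κ : ℝ) (hn : 1 ≤ n) (hL : LamF n) (hκ : 0 < κ)
    (v : E4) (hv : v ∈ dec_K ι) : ((0 : ℝ), v) ∈ WW n ι κ := by
  have h1 : (ι v).1 ≠ 0 := by
    intro h
    have h2 : (ι v).2 = 0 := by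
      have := hv.2
      rw [h, norm_zero] at this
      exact norm_le_zero_iff.1 this
    have h3 : ι v = 0 := Prod.ext h h2
    have h4 : v = 0 := by simpa using h3
    have := hv.1
    rw [h4, norm_zero] at this
    exact zero_ne_one this
  have h5 : (κ • ι v).1 ≠ 0 := by
    rw [Prod.smul_fst]
    exact smul_ne_zero hκ.ne' h1
  refine ⟨?_, ?_⟩
  · change 8 * |(0 : ℝ)| ^ n < NN n (κ • ι v)
    rw [abs_zero, zero_pow (by omega), mul_zero]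
    have a := pow_pos (Complex.normSq_pos.2 h5) n
    have b := pow_nonneg (Complex.normSq_nonneg (κ • ι v).2) n
    unfold NN
    linarith
  · change (Ph n 0 (κ • ι v)).1 ≠ 0
    rw [hL.zero]
    exact pow_ne_zero _ h5

theorem dec_tube (W : Set (ℝ × E4)) (K : Set E4) (hW : IsOpen W) (hK : IsCompact K)
    (h : ∀ v ∈ K, ((0 : ℝ), v) ∈ W) : ∃ t₀ : ℝ, 0 < t₀ ∧ Icc 0 t₀ ×ˢ K ⊆ W := by
  obtain ⟨u, w, hu, -, h0, hKw, huw⟩ := generalized_tube_lemma (isCompact_singleton (x := (0 : ℝ)))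
    hK hW (by
      rintro ⟨t, v⟩ ⟨ht, hv⟩
      have : t = 0 := ht
      subst this
      exact h v hv)
  obtain ⟨ε, hε, hb⟩ := Metric.isOpen_iff.1 hu 0 (h0 rfl)
  refine ⟨ε / 2, by positivity, fun a ha => huw ⟨hb ?_, hKw ha.2⟩⟩
  rw [mem_ball_zero_iff, Real.norm_of_nonneg ha.1.1]
  linarith [ha.1.2]

/-- Row DEC. -/
theorem sdec (h : SSCALE) : SDEC := by
  intro n pot ι κ hn hL _ hκ hG
  obtain ⟨t₀, ht₀, hsub⟩ := dec_tube (WW n ι κ) (dec_K ι) hG.isOpen (dec_compact ι)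
    (dec_zero n ι κ hn hL hκ)
  obtain ⟨C₀, hC₀⟩ := h E4 (E4 →L[ℝ] E4 →L[ℝ] ℝ)
    (fun a => GG n pot ι κ a.1 a.2 - dec_in) (WW n ι κ) (dec_K ι) t₀ hG.isOpen
    (hG.smooth.sub contDiffOn_const) (dec_compact ι) hsub
    (fun v hv => by
      ext a b
      simp [hG.zero v hv a b, dec_in_apply]) 0
  set R : ℝ := 1 + t₀⁻¹ + |C₀| with hR
  have hi : 0 < t₀⁻¹ := inv_pos.2 ht₀
  have ha : 0 ≤ |C₀| := abs_nonneg _
  have key : ∀ v : E4, R < ‖v‖ → ‖(ι v).2‖ ≤ ‖(ι v).1‖ →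
      0 < ‖v‖ ∧ (‖v‖ ^ 2)⁻¹ ∈ Icc 0 t₀ ∧ ‖v‖⁻¹ • v ∈ dec_K ι ∧ C₀ * (‖v‖ ^ 2)⁻¹ < 1 := by
    intro v hv hd
    have h1 : 1 < ‖v‖ := by linarith
    have h2 : ‖v‖ < ‖v‖ ^ 2 := by nlinarith
    have h3 : 0 < ‖v‖ := by linarith
    refine ⟨h3, ⟨by positivity, ?_⟩, ⟨?_, ?_⟩, ?_⟩
    · exact inv_le_of_inv_le₀ ht₀ (by linarith)
    · rw [norm_smul, norm_inv, norm_norm, inv_mul_cancel₀ h3.ne']
    · rw [map_smul, Prod.smul_fst, Prod.smul_snd, norm_smul, norm_smul]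
      exact mul_le_mul_of_nonneg_left hd (norm_nonneg _)
    · rw [← div_eq_mul_inv, div_lt_one (by positivity)]
      linarith [le_abs_self C₀]
  have hom : ∀ (ρ : ℝ), 0 < ρ → ∀ w : E4, ((ρ ^ 2)⁻¹, ρ⁻¹ • w) ∈ WW n ι κ →
      ((1 : ℝ), w) ∈ WW n ι κ ∧ GG n pot ι κ 1 w = GG n pot ι κ (ρ ^ 2)⁻¹ (ρ⁻¹ • w) := by
    intro ρ hρ w hw
    have := hG.hom ρ hρ _ _ hw
    rwa [mul_inv_cancel₀ (by positivity), smul_smul, mul_inv_cancel₀ hρ.ne', one_smul] at this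
  refine ⟨R, by positivity, fun v hv hd => ?_, fun a b k => ?_⟩
  · obtain ⟨h3, ht, hu, hc⟩ := key v hv hd
    obtain ⟨h4, h5⟩ := hom _ h3 v (hsub ⟨ht, hu⟩)
    refine ⟨h4, fun a ha0 hz => ?_⟩
    have h6 := hC₀ _ ht _ hu
    rw [norm_iteratedFDeriv_zero] at h6
    have h7 := ContinuousLinearMap.le_opNorm₂
      (GG n pot ι κ (‖v‖ ^ 2)⁻¹ (‖v‖⁻¹ • v) - dec_in) a a
    have h8 : (GG n pot ι κ (‖v‖ ^ 2)⁻¹ (‖v‖⁻¹ • v) - dec_in) a a = -(‖a‖ * ‖a‖) := by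
      rw [← h5]
      simp [hz, pow_two, dec_in_apply]
    have h9 : 0 < ‖a‖ := norm_pos_iff.2 ha0
    rw [h8, norm_neg, Real.norm_of_nonneg (by positivity), mul_assoc] at h7
    have h10 := mul_lt_mul_of_pos_right (h6.trans_lt hc) (mul_pos h9 h9)
    linarith
  · obtain ⟨C, hC⟩ := h E4 ℝ (fun x => GG n pot ι κ x.1 x.2 a b - inner ℝ a b) (WW n ι κ)
      (dec_K ι) t₀ hG.isOpen
      (((hG.smooth.clm_apply contDiffOn_const).clm_apply contDiffOn_const).sub contDiffOn_const)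
      (dec_compact ι) hsub (fun v hv => by simp [hG.zero v hv a b]) k
    refine ⟨C, fun v hv hd => ?_⟩
    obtain ⟨h3, ht, hu, -⟩ := key v hv hd
    have hev : ∀ᶠ w in 𝓝 v, ((‖v‖ ^ 2)⁻¹, ‖v‖⁻¹ • w) ∈ WW n ι κ := by
      have hcont : Continuous fun w : E4 => (((‖v‖ ^ 2)⁻¹, ‖v‖⁻¹ • w) : ℝ × E4) := by fun_prop
      exact hcont.continuousAt.preimage_mem_nhds (hG.isOpen.mem_nhds (hsub ⟨ht, hu⟩))
    have heq : (fun w => GG n pot ι κ 1 w a b - inner ℝ a b) =ᶠ[𝓝 v]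
        fun w => (fun u => GG n pot ι κ (‖v‖ ^ 2)⁻¹ u a b - inner ℝ a b) (‖v‖⁻¹ • w) :=
      hev.mono fun w hw => by
        change GG n pot ι κ 1 w a b - inner ℝ a b = _
        rw [(hom _ h3 w hw).2]
    rw [(heq.iteratedFDeriv ℝ k).eq_of_nhds]
    refine (dec_scale (fun u => GG n pot ι κ (‖v‖ ^ 2)⁻¹ u a b - inner ℝ a b) ‖v‖⁻¹
      (inv_pos.2 h3) k v).trans ?_
    refine (mul_le_mul_of_nonneg_right (hC _ ht _ hu) (by positivity)).trans (le_of_eq ?_)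
    rw [Real.rpow_sub h3, Real.rpow_neg h3.le, Real.rpow_two, Real.rpow_natCast, inv_pow]
    ring

end

end Pool.Agent.MP_67f0e4_gt.D2
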