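import Pool.Agent.MP_67f0e4_gt.D2.Spec

/-! Row END: the order of the group at infinity is a topological invariant. -/

open scoped Topology
open Filter Set

namespace Pool.Agent.MP_67f0e4_gt.D2

/-- The outside of a ball is preconnected. -/
theorem end_conn {ρ : ℝ} (hρ : 0 < ρ) : IsPreconnected {v : E4 | ρ < ‖v‖} := by
  have h1 : IsPreconnected (Metric.sphere (0 : E4) 1) :=
    isPreconnected_sphere (by
      rw [← Module.finrank_eq_rank, finrank_euclideanSpace_fin]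
      exact Nat.one_lt_cast.2 (by norm_num)) 0 1
  have h2 := (isPreconnected_Ioi (a := ρ)).prod h1
  have h3 := h2.image (fun a : ℝ × E4 => a.1 • a.2) (by fun_prop)
  have h4 : (fun a : ℝ × E4 => a.1 • a.2) '' (Ioi ρ ×ˢ Metric.sphere (0 : E4) 1) =
      {v : E4 | ρ < ‖v‖} := by
    ext v
    constructor
    · rintro ⟨⟨r, u⟩, ⟨hr, hu⟩, rfl⟩
      have hr' : ρ < r := hr
      have hu' : ‖u‖ = 1 := mem_sphere_zero_iff_norm.1 hu
      change ρ < ‖r • u‖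
      rw [norm_smul, hu', mul_one, Real.norm_eq_abs, abs_of_pos (hρ.trans hr')]
      exact hr'
    · intro hv
      have hv' : ρ < ‖v‖ := hv
      have h0 : ‖v‖ ≠ 0 := (hρ.trans hv').ne'
      refine ⟨(‖v‖, ‖v‖⁻¹ • v), ⟨hv', mem_sphere_zero_iff_norm.2 ?_⟩, smul_inv_smul₀ h0 v⟩
      rw [norm_smul, norm_inv, norm_norm, inv_mul_cancel₀ h0]
  rwa [h4] at h3

/-- The action is free away from the origin. -/
theorem end_free {Γ : Subgroup (E4 ≃ₗᵢ[ℝ] E4)}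
    (hf : ∀ γ ∈ Γ, ∀ v : E4, ‖v‖ = 1 → γ v = v → γ = 1) {d d' : Γ} {w : E4} (hw : 0 < ‖w‖)
    (e : d.1 w = d'.1 w) : d = d' := by
  have h1 : (d'⁻¹ * d).1 = 1 := by
    refine hf _ (d'⁻¹ * d).2 (‖w‖⁻¹ • w) ?_ ?_
    · rw [norm_smul, norm_inv, norm_norm, inv_mul_cancel₀ hw.ne']
    · rw [map_smul]
      congr 1
      change d'.1.symm (d.1 w) = w
      rw [e, LinearIsometryEquiv.symm_apply_apply]
  have h2 : d'⁻¹ * d = 1 := Subtype.ext h1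
  exact (inv_mul_eq_one.1 h2).symm

/-- A continuous map that moves every point inside its orbit is an element of the group. -/
theorem end_deck {Γ : Subgroup (E4 ≃ₗᵢ[ℝ] E4)} [Finite Γ]
    (hf : ∀ γ ∈ Γ, ∀ v : E4, ‖v‖ = 1 → γ v = v → γ = 1) {ρ : ℝ} (hρ : 0 < ρ) {H : E4 → E4}
    (hH : ContinuousOn H {v | ρ < ‖v‖}) (ho : ∀ w, ρ < ‖w‖ → ∃ d ∈ Γ, H w = d w) {w₀ : E4}
    (h0 : ρ < ‖w₀‖) : ∃ d : E4 ≃ₗᵢ[ℝ] E4, ∀ w, ρ < ‖w‖ → H w = d w := by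
  have hc : PreconnectedSpace {v : E4 | ρ < ‖v‖} := Subtype.preconnectedSpace (end_conn hρ)
  have hcl : ∀ d : Γ, IsClosed {w : {v : E4 | ρ < ‖v‖} | H w.1 = d.1 w.1} := fun d =>
    isClosed_eq hH.domRestrict (d.1.continuous.comp continuous_subtype_val)
  obtain ⟨d₀, hd, e₀⟩ := ho w₀ h0
  have hop : IsOpen {w : {v : E4 | ρ < ‖v‖} | H w.1 = d₀ w.1} := by
    rw [← isClosed_compl_iff]
    have : {w : {v : E4 | ρ < ‖v‖} | H w.1 = d₀ w.1}ᶜ =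
        ⋃ d : {d : Γ // d ≠ ⟨d₀, hd⟩}, {w : {v : E4 | ρ < ‖v‖} | H w.1 = d.1.1 w.1} := by
      ext w
      rw [mem_compl_iff, mem_iUnion]
      constructor
      · intro hn
        obtain ⟨d, hd', e⟩ := ho w.1 w.2
        refine ⟨⟨⟨d, hd'⟩, fun q => hn ?_⟩, e⟩
        have q' : d = d₀ := congrArg Subtype.val q
        exact q' ▸ e
      · rintro ⟨d, e⟩ e'
        exact d.2 (end_free hf (hρ.trans w.2) (e.symm.trans e'))
    rw [this]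
    exact isClosed_iUnion_of_finite fun d => hcl d.1
  have hu := IsClopen.eq_univ ⟨hcl ⟨d₀, hd⟩, hop⟩ ⟨⟨w₀, h0⟩, e₀⟩
  refine ⟨d₀, fun w hw => ?_⟩
  have : (⟨w, hw⟩ : {v : E4 | ρ < ‖v‖}) ∈ {w : {v : E4 | ρ < ‖v‖} | H w.1 = d₀ w.1} :=
    hu.symm ▸ mem_univ _
  exact this

theorem end_mono {N : Type} [TopologicalSpace N] {Γ : Subgroup (E4 ≃ₗᵢ[ℝ] E4)} {R ρ : ℝ}
    {Φ : E4 → N} (h : IsEnd Γ R Φ) (hρ : R ≤ ρ) : IsEnd Γ ρ Φ :=
  ⟨h.pos.trans_le hρ, h.fin, h.free, h.cont.mono fun _ hv => hρ.trans_lt hv,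
    fun v w hv hw => h.fib v w (hρ.trans_lt hv) (hρ.trans_lt hw),
    fun r hr => h.cocpt r (hρ.trans hr), h.proper⟩

theorem end_homeo {N N' : Type} [TopologicalSpace N] [TopologicalSpace N']
    {Γ : Subgroup (E4 ≃ₗᵢ[ℝ] E4)} {R : ℝ} {Φ : E4 → N'} (h : IsEnd Γ R Φ) (e : N' ≃ₜ N) :
    IsEnd Γ R fun v => e (Φ v) := by
  refine ⟨h.pos, h.fin, h.free, e.continuous.comp_continuousOn h.cont,
    fun v w hv hw => e.injective.eq_iff.trans (h.fib v w hv hw), fun r hr => ?_, fun K hK => ?_⟩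
  · have h1 := (h.cocpt r hr).image e.continuous
    rwa [image_compl_eq e.bijective, image_image] at h1
  · obtain ⟨r, hr⟩ := h.proper (e ⁻¹' K) (e.isCompact_preimage.2 hK)
    exact ⟨r, hr⟩

/-- One end chart lifts through another. -/
theorem end_lift (h2 : SLIFT) {N : Type} [TopologicalSpace N] [T2Space N] [LocallyCompactSpace N]
    {Γ Γ' : Subgroup (E4 ≃ₗᵢ[ℝ] E4)} {R R' : ℝ} {Φ Φ' : E4 → N} (h : IsEnd Γ R Φ)
    (h' : IsEnd Γ' R' Φ') : ∃ (ρ : ℝ) (G : E4 → E4), R' ≤ ρ ∧ ContinuousOn G {v | ρ < ‖v‖} ∧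
      ∀ v, ρ < ‖v‖ → R < ‖G v‖ ∧ Φ (G v) = Φ' v := by
  obtain ⟨r, hr⟩ := h'.proper _ (h.cocpt R le_rfl)
  have h3 := end_mono h' (le_max_left R' r)
  obtain ⟨G, hG⟩ := h2 N Γ R Φ h (max R' r) Φ' h3.pos h3.cont fun v hv =>
    not_not.1 (hr v ((le_max_right R' r).trans_lt hv))
  exact ⟨max R' r, G, le_max_left _ _, hG⟩

theorem end_le (h2 : SLIFT) {N : Type} [TopologicalSpace N] [T2Space N] [LocallyCompactSpace N]
    {Γ Γ' : Subgroup (E4 ≃ₗᵢ[ℝ] E4)} {R R' : ℝ} {Φ Φ' : E4 → N} (h : IsEnd Γ R Φ)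
    (h' : IsEnd Γ' R' Φ') : Nat.card Γ ≤ Nat.card Γ' := by
  have := h.fin
  have := h'.fin
  obtain ⟨ρ, G, hρ, cG, hG⟩ := end_lift h2 h h'
  obtain ⟨σ, F, hσ, cF, hF⟩ := end_lift h2 (end_mono h' hρ) h
  have σ0 : 0 < σ := h.pos.trans_le hσ
  obtain ⟨w₀, h0⟩ : ∃ w₀ : E4, σ < ‖w₀‖ := NormedSpace.exists_lt_norm ℝ E4 σ
  obtain ⟨d₀, hd⟩ := end_deck h.free σ0 (H := fun w => G (F w))
    (cG.comp cF fun w hw => (hF w hw).1) (fun w hw =>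
      (h.fib w _ (hσ.trans_lt hw) (hG _ (hF w hw).1).1).1
        ((hG _ (hF w hw).1).2.trans (hF w hw).2).symm) h0
  have hn : ∀ d : Γ, σ < ‖d.1 w₀‖ := fun d => by rwa [LinearIsometryEquiv.norm_map]
  have key : ∀ d : Γ, ∃ g : Γ', F (d.1 w₀) = g.1 (F w₀) := fun d => by
    obtain ⟨g, hg, e⟩ := (h'.fib (F w₀) (F (d.1 w₀)) (hρ.trans_lt (hF _ h0).1)
      (hρ.trans_lt (hF _ (hn d)).1)).1 (by
        rw [(hF _ h0).2, (hF _ (hn d)).2]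
        exact (h.fib _ _ (hσ.trans_lt h0) (hσ.trans_lt (hn d))).2 ⟨d.1, d.2, rfl⟩)
    exact ⟨⟨g, hg⟩, e⟩
  choose θ hθ using key
  refine Nat.card_le_card_of_injective θ fun d d' e => end_free h.free (σ0.trans h0) ?_
  apply d₀.injective
  rw [← hd _ (hn d), ← hd _ (hn d'), hθ d, hθ d', e]

theorem send (_h1 : SOPEN) (h2 : SLIFT) : SEND := by
  rintro N N' _ _ _ _ Γ Γ' R R' Φ Φ' h h' ⟨e⟩
  exact le_antisymm (end_le h2 h (end_homeo h' e.symm)) (end_le h2 (end_homeo h' e.symm) h)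

end Pool.Agent.MP_67f0e4_gt.D2
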