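import Pool.Agent.MP_67f0e4_gt.D2.Spec

/-! Rows GH and SCALE: homogeneity of the metric at infinity, and the scale estimate. -/

open scoped ContDiff Topology
open Filter Set

namespace Pool.Agent.MP_67f0e4_gt.D2

/-- The weighted dilation in the coordinates `(x, z)`. -/
noncomputable def gh_d (n : ℕ) (c : ℝ) : C2 →L[ℂ] C2 :=
  ((c : ℂ) ^ n • ContinuousLinearMap.fst ℂ ℂ ℂ).prod ((c : ℂ) ^ 2 • ContinuousLinearMap.snd ℂ ℂ ℂ)

theorem gh_d_apply (n : ℕ) (c : ℝ) (u : C2) :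
    gh_d n c u = ((c : ℂ) ^ n * u.1, (c : ℂ) ^ 2 * u.2) := rfl

theorem gh_pp {n : ℕ} (hl : LamF n) (ι : E4 ≃L[ℝ] C2) (κ : ℝ) {c : ℝ} (hc : 0 < c) (t : ℝ)
    (w : E4) : PP n ι κ (c ^ 2 * t) (c • w) = gh_d n c (PP n ι κ t w) := by
  rw [gh_d_apply, PP, map_smul, smul_comm κ c, hl.hom c hc]
  rfl

theorem gh_diff {n : ℕ} (hl : LamF n) (ι : E4 ≃L[ℝ] C2) (κ t : ℝ) (v : E4)
    (h : (t, κ • ι v) ∈ Om n) : DifferentiableAt ℝ (PP n ι κ t) v := by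
  have h1 : DifferentiableAt ℝ (fun a : ℝ × C2 => Ph n a.1 a.2) (t, κ • ι v) :=
    (hl.smooth.contDiffAt (hl.isOpen.mem_nhds h)).differentiableAt (by simp)
  have h2 : DifferentiableAt ℝ (fun w : E4 => (t, κ • ι w)) v :=
    (differentiableAt_const t).prodMk (ι.differentiableAt.const_smul κ)
  have h3 : DifferentiableAt ℝ (fun w : E4 => Ph n t (κ • ι w)) v :=
    DifferentiableAt.comp (g := fun a : ℝ × C2 => Ph n a.1 a.2) v h1 h2
  exact h3.fst.prodMk h3.snd.snd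

theorem gh_fderiv {n : ℕ} (hl : LamF n) (ι : E4 ≃L[ℝ] C2) (κ : ℝ) {c : ℝ} (hc : 0 < c) (t : ℝ)
    (v : E4) (h : (t, κ • ι v) ∈ Om n) (a : E4) :
    fderiv ℝ (PP n ι κ (c ^ 2 * t)) (c • v) a =
      gh_d n c (c⁻¹ • fderiv ℝ (PP n ι κ t) v a) := by
  have h0 : PP n ι κ (c ^ 2 * t) = fun w => gh_d n c (PP n ι κ t (c⁻¹ • w)) := by
    funext w
    rw [← gh_pp hl ι κ hc, smul_inv_smul₀ hc.ne']
  have h1 : HasFDerivAt (PP n ι κ t) (fderiv ℝ (PP n ι κ t) v) (c⁻¹ • c • v) := by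
    rw [inv_smul_smul₀ hc.ne']
    exact (gh_diff hl ι κ t v h).hasFDerivAt
  have h2 : HasFDerivAt (fun w : E4 => c⁻¹ • w) (c⁻¹ • ContinuousLinearMap.id ℝ E4) (c • v) :=
    (hasFDerivAt_id (c • v)).const_smul c⁻¹
  have h3 : HasFDerivAt (fun w => gh_d n c (PP n ι κ t (c⁻¹ • w)))
      (((gh_d n c).restrictScalars ℝ).comp ((fderiv ℝ (PP n ι κ t) v).comp
        (c⁻¹ • ContinuousLinearMap.id ℝ E4))) (c • v) :=
    ((gh_d n c).restrictScalars ℝ).hasFDerivAt.comp (c • v) (h1.comp (c • v) h2)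
  rw [h0, h3.fderiv, ← map_smul]
  rfl

theorem gh_pot {n : ℕ} {pot : ℝ → C2 → ℝ} (hk : KF n pot) (t : ℝ) {u : C2} (hu : u.1 ≠ 0) :
    ContDiffAt ℝ 2 (pot t) u := by
  have ho : IsOpen {a : ℝ × C2 | a.2.1 ≠ 0} :=
    isOpen_ne_fun (continuous_fst.comp continuous_snd) continuous_const
  have h1 : ContDiffAt ℝ ∞ (fun a : ℝ × C2 => pot a.1 a.2) (t, u) :=
    hk.smooth.contDiffAt (ho.mem_nhds hu)
  have h2 : ContDiffAt ℝ ∞ (fun w : C2 => (t, w)) u := contDiffAt_const.prodMk contDiffAt_id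
  exact (ContDiffAt.comp (g := fun a : ℝ × C2 => pot a.1 a.2) u h1 h2).of_le
    (WithTop.coe_le_coe.2 (le_top : (2 : ℕ∞) ≤ ⊤))

theorem gh_lev {n : ℕ} {pot : ℝ → C2 → ℝ} (hv : LevF) (hk : KF n pot) {c : ℝ} (hc : 0 < c)
    (t : ℝ) {u : C2} (hu : u.1 ≠ 0) (a b : C2) :
    levL (pot (c ^ 2 * t)) (gh_d n c u) (gh_d n c a) (gh_d n c b) =
      c ^ 2 * levL (pot t) u a b := by
  have hc' : (c : ℂ) ≠ 0 := Complex.ofReal_ne_zero.2 hc.ne'
  have h1 : (gh_d n c u).1 ≠ 0 := mul_ne_zero (pow_ne_zero _ hc') hu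
  have h2 := hv.hol (pot (c ^ 2 * t)) (gh_d n c) u (gh_pot hk _ h1) ((gh_d n c).analyticAt u) a b
  have h3 : fderiv ℝ (gh_d n c) u = (gh_d n c).restrictScalars ℝ :=
    ((gh_d n c).restrictScalars ℝ).hasFDerivAt.fderiv
  have h4 : (fun w => pot (c ^ 2 * t) (gh_d n c w)) =ᶠ[𝓝 u] fun w => c ^ 2 * pot t w := by
    filter_upwards [(isOpen_ne_fun continuous_fst continuous_const).mem_nhds hu] with w hw
    exact hk.hom c hc t w.1 w.2 hw
  rw [h3, hv.germ _ _ u h4, hv.mul _ _ u (gh_pot hk t hu)] at h2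
  exact h2.symm

theorem sgh : SGH := by
  intro n pot ι κ _ hl hv hk c hc t v h
  have hc' : (c : ℂ) ≠ 0 := Complex.ofReal_ne_zero.2 hc.ne'
  refine ⟨⟨?_, ?_⟩, ?_⟩
  · have h1 : 8 * |t| ^ n < NN n (κ • ι v) := h.1
    change 8 * |c ^ 2 * t| ^ n < NN n (κ • ι (c • v))
    rw [map_smul, smul_comm κ c, hl.homN, abs_mul, abs_of_pos (pow_pos hc 2), mul_pow,
      mul_left_comm]
    exact mul_lt_mul_of_pos_left h1 (pow_pos (pow_pos hc 2) n)
  · change (PP n ι κ (c ^ 2 * t) (c • v)).1 ≠ 0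
    rw [gh_pp hl ι κ hc]
    exact mul_ne_zero (pow_ne_zero _ hc') h.2
  · refine ContinuousLinearMap.ext fun a => ContinuousLinearMap.ext fun b => ?_
    rw [GG, GG, ContinuousLinearMap.bilinearComp_apply, ContinuousLinearMap.bilinearComp_apply,
      gh_fderiv hl ι κ hc t v h.1, gh_fderiv hl ι κ hc t v h.1, gh_pp hl ι κ hc,
      gh_lev hv hk hc t h.2, map_smul, map_smul, smul_apply, smul_eq_mul,
      smul_eq_mul]
    field_simp

theorem gh_scale (E : Type) [NormedAddCommGroup E] [NormedSpace ℝ E] (W : Set (ℝ × E))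
    (K : Set E) (t₀ : ℝ) (hW : IsOpen W) (hK : IsCompact K) (hs : Icc 0 t₀ ×ˢ K ⊆ W) (k : ℕ) :
    ∀ (F : Type) [NormedAddCommGroup F] [NormedSpace ℝ F] (G : ℝ × E → F),
      ContDiffOn ℝ ∞ G W → (∀ v, ((0 : ℝ), v) ∈ W → G (0, v) = 0) →
      ∃ C : ℝ, ∀ t ∈ Icc 0 t₀, ∀ v ∈ K,
        ‖iteratedFDeriv ℝ k (fun w => G (t, w)) v‖ ≤ C * t := by
  induction k with
  | zero =>
    intro F _ _ G hG h0
    obtain ⟨C, hC⟩ := (isCompact_Icc.prod hK).exists_bound_of_continuousOn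
      ((hG.continuousOn_fderiv_of_isOpen hW (by simp)).mono hs)
    refine ⟨C, fun t ht v hv => ?_⟩
    have h1 : Icc 0 t₀ ×ˢ ({v} : Set E) ⊆ Icc 0 t₀ ×ˢ K :=
      prod_mono Subset.rfl (singleton_subset_iff.2 hv)
    have h2 : ((0 : ℝ), v) ∈ Icc 0 t₀ ×ˢ ({v} : Set E) := ⟨⟨le_rfl, ht.1.trans ht.2⟩, rfl⟩
    have h3 := ((convex_Icc (0 : ℝ) t₀).prod (convex_singleton v)).norm_image_sub_le_of_norm_fderiv_le
      (𝕜 := ℝ) (f := G)
      (fun x hx => (hG.contDiffAt (hW.mem_nhds (hs (h1 hx)))).differentiableAt (by simp))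
      (fun x hx => hC x (h1 hx)) h2 (y := (t, v)) ⟨ht, rfl⟩
    rw [h0 v (hs (h1 h2)), sub_zero, Prod.mk_sub_mk, sub_zero, sub_self, Prod.norm_mk, norm_zero,
      Real.norm_of_nonneg ht.1, max_eq_left ht.1] at h3
    rwa [norm_iteratedFDeriv_zero]
  | succ k ih =>
    intro F _ _ G hG h0
    have h1 : ContDiffOn ℝ ∞ (fun a : ℝ × E => fderiv ℝ (fun w => G (a.1, w)) a.2) W := by
      intro a ha
      have h2 : ContDiffAt ℝ ∞ (fun x : (ℝ × E) × E => (x.1.1, x.2)) (a, a.2) :=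
        contDiffAt_fst.fst.prodMk contDiffAt_snd
      have h3 : ContDiffAt ℝ ∞ (Function.uncurry fun (a : ℝ × E) (w : E) => G (a.1, w))
          (a, a.2) := ContDiffAt.comp (g := G) (a, a.2) (hG.contDiffAt (hW.mem_nhds ha)) h2
      exact (ContDiffAt.fderiv (g := Prod.snd) h3 contDiffAt_snd (by simp)).contDiffWithinAt
    have h4 : ∀ v, ((0 : ℝ), v) ∈ W → fderiv ℝ (fun w => G (0, w)) v = 0 := by
      intro v hv
      have h5 : (fun w => G (0, w)) =ᶠ[𝓝 v] fun _ => 0 := by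
        filter_upwards [(hW.preimage (Continuous.prodMk_right (0 : ℝ))).mem_nhds hv] with w hw
        exact h0 w hw
      rw [h5.fderiv_eq]
      exact fderiv_const_apply 0
    obtain ⟨C, hC⟩ := ih _ _ h1 h4
    refine ⟨C, fun t ht v hv => ?_⟩
    rw [← norm_iteratedFDeriv_fderiv]
    exact hC t ht v hv

theorem sscale : SSCALE := by
  intro E F _ _ _ _ G W K t₀ hW hG hK hs h0 k
  exact gh_scale E W K t₀ hW hK hs k F G hG h0

end Pool.Agent.MP_67f0e4_gt.D2
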