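import Pool.Agent.MP_67f0e4_gt.D2.Spec

/-! Rows GS and GZ: smoothness of the metric in the chart at infinity, flatness of the cone. -/

open scoped ContDiff Topology ComplexConjugate
open Filter Set

namespace Pool.Agent.MP_67f0e4_gt.D2

theorem gs_lin (ι : E4 ≃L[ℝ] C2) (κ : ℝ) :
    ContDiff ℝ ∞ (fun a : ℝ × E4 => (a.1, κ • ι a.2)) :=
  contDiff_fst.prodMk ((ι.contDiff.comp contDiff_snd).const_smul κ)

theorem gs_PP {n : ℕ} (ι : E4 ≃L[ℝ] C2) (κ : ℝ) (hL : LamF n) (a : ℝ × E4)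
    (ha : (a.1, κ • ι a.2) ∈ Om n) :
    ContDiffAt ℝ ∞ (fun b : ℝ × E4 => PP n ι κ b.1 b.2) a := by
  have h1 : ContDiffAt ℝ ∞ (fun b : ℝ × E4 => Ph n b.1 (κ • ι b.2)) a :=
    ContDiffAt.comp (g := fun c : ℝ × C2 => Ph n c.1 c.2)
      (f := fun b : ℝ × E4 => (b.1, κ • ι b.2)) a
      (hL.smooth.contDiffAt (hL.isOpen.mem_nhds ha)) (gs_lin ι κ).contDiffAt
  exact h1.fst.prodMk h1.snd.snd

theorem gs_clm {D F : Type} [NormedAddCommGroup D] [NormedSpace ℝ D] [NormedAddCommGroup F]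
    [NormedSpace ℝ F] {f : D → E4 →L[ℝ] F} {a : D}
    (h : ∀ x, ContDiffAt ℝ ∞ (fun b => f b x) a) : ContDiffAt ℝ ∞ f a := by
  let d := Module.finrank ℝ E4
  have hd : d = Module.finrank ℝ (Fin d → ℝ) := (Module.finrank_fin_fun ℝ).symm
  let e₁ := ContinuousLinearEquiv.ofFinrankEq hd
  let e₂ := (e₁.arrowCongr (1 : F ≃L[ℝ] F)).trans (ContinuousLinearEquiv.piRing (Fin d))
  rw [← Function.id_comp f, ← e₂.symm_comp_self]
  exact e₂.symm.contDiff.contDiffAt.comp a (contDiffAt_pi.mpr fun i => h _)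

theorem sgs : SGS := by
  intro n pot ι κ _ hL hV hK
  constructor
  · rw [isOpen_iff_mem_nhds]
    intro a ha
    have h1 : ∀ᶠ b : ℝ × E4 in 𝓝 a, (b.1, κ • ι b.2) ∈ Om n :=
      (gs_lin ι κ).continuous.continuousAt.eventually (hL.isOpen.mem_nhds ha.1)
    have h2 : ∀ᶠ b : ℝ × E4 in 𝓝 a, (PP n ι κ b.1 b.2).1 ≠ 0 :=
      (gs_PP ι κ hL a ha.1).continuousAt.fst.eventually_ne ha.2
    exact h1.and h2
  · intro a ha
    refine ContDiffAt.contDiffWithinAt ?_
    have hP := gs_PP ι κ hL a ha.1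
    have hD : ContDiffAt ℝ ∞ (fun b : ℝ × E4 => fderiv ℝ (PP n ι κ b.1) b.2) a := by
      refine ContDiffAt.fderiv (n := ∞) (f := fun b : ℝ × E4 => PP n ι κ b.1)
        (g := fun b : ℝ × E4 => b.2) ?_ contDiffAt_snd (by simp)
      exact ContDiffAt.comp (g := fun b : ℝ × E4 => PP n ι κ b.1 b.2)
        (f := fun c : (ℝ × E4) × E4 => (c.1.1, c.2)) (a, a.2) hP
        (contDiffAt_fst.fst.prodMk contDiffAt_snd)
    have hO : IsOpen {c : ℝ × C2 | c.2.1 ≠ 0} :=
      isOpen_ne_fun (continuous_fst.comp continuous_snd) continuous_const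
    have hS : ContDiffAt ℝ ∞ (fun b : ℝ × E4 => levL (pot b.1) (PP n ι κ b.1 b.2)) a :=
      ContDiffAt.comp (g := fun c : ℝ × C2 => levL (fun u => pot c.1 u) c.2)
        (f := fun b : ℝ × E4 => (b.1, PP n ι κ b.1 b.2)) a
        (hV.smooth (fun c : ℝ × C2 => pot c.1 c.2) _
          (hK.smooth.contDiffAt (hO.mem_nhds ha.2))) (contDiffAt_fst.prodMk hP)
    refine gs_clm fun x => gs_clm fun y => ?_
    exact (hS.clm_apply (hD.clm_apply contDiffAt_const)).clm_apply
      (hD.clm_apply contDiffAt_const)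

theorem gs_polar {ι : E4 ≃L[ℝ] C2} (h : Iso ι) (a b : E4) :
    ((ι a).1 * conj (ι b).1).re + ((ι a).2 * conj (ι b).2).re = inner ℝ a b := by
  have h1 := h (a + b)
  rw [norm_add_sq_real, h a, h b, map_add, Prod.fst_add, Prod.snd_add, Complex.normSq_add,
    Complex.normSq_add] at h1
  linarith

theorem sgz : SGZ := by
  intro n pot ι κ hn hL hV hK hι _ hκ v hv a b
  let T : C2 → C2 := fun q => (q.1 ^ n, q.1 * q.2)
  have hT : ∀ u, AnalyticAt ℂ T u := fun u =>
    (analyticAt_fst.pow n).prod (analyticAt_fst.mul analyticAt_snd)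
  let A : E4 →L[ℝ] C2 := κ • (ι : E4 →L[ℝ] C2)
  have hA : ∀ w, A w = κ • ι w := fun _ => rfl
  have hP : PP n ι κ 0 = T ∘ A := by
    funext w
    simp only [PP, hL.zero, Function.comp_apply, T, hA]
  have h0 : (A v).1 ≠ 0 := by
    have := hv.2
    simp only [hP, Function.comp_apply, T] at this
    exact fun h => this (by rw [h, zero_pow (by omega)])
  have hTd : DifferentiableAt ℝ T (A v) := (hT _).differentiableAt.restrictScalars ℝ
  have hD : fderiv ℝ (T ∘ A) v = (fderiv ℝ T (A v)).comp A := by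
    rw [fderiv_comp v hTd A.differentiableAt, A.fderiv]
  have hO : IsOpen {c : ℝ × C2 | c.2.1 ≠ 0} :=
    isOpen_ne_fun (continuous_fst.comp continuous_snd) continuous_const
  have hp : ContDiffAt ℝ 2 (pot 0) (T (A v)) := by
    have h1 : ContDiffAt ℝ ∞ (fun u : C2 => pot 0 u) (T (A v)) :=
      ContDiffAt.comp (g := fun c : ℝ × C2 => pot c.1 c.2) (f := fun u : C2 => ((0 : ℝ), u)) _
        (hK.smooth.contDiffAt (hO.mem_nhds (pow_ne_zero n h0)))
        (contDiffAt_const.prodMk contDiffAt_id)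
    exact h1.of_le (WithTop.coe_le_coe.2 (le_top : (2 : ℕ∞) ≤ ⊤))
  have hg : (fun w => pot 0 (T w)) =ᶠ[𝓝 (A v)]
      fun u => (n : ℝ) * (Complex.normSq u.1 + Complex.normSq u.2) := by
    filter_upwards [continuous_fst.continuousAt.eventually_ne h0] with u hu
    exact hK.zero u hu
  have hq : ContDiffAt ℝ 2 (fun u : C2 => Complex.normSq u.1 + Complex.normSq u.2) (A v) := by
    simp only [Complex.normSq_apply]
    have h1 : ContDiff ℝ 2 (fun u : C2 => u.1.re) := Complex.reCLM.contDiff.comp contDiff_fst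
    have h2 : ContDiff ℝ 2 (fun u : C2 => u.1.im) := Complex.imCLM.contDiff.comp contDiff_fst
    have h3 : ContDiff ℝ 2 (fun u : C2 => u.2.re) := Complex.reCLM.contDiff.comp contDiff_snd
    have h4 : ContDiff ℝ 2 (fun u : C2 => u.2.im) := Complex.imCLM.contDiff.comp contDiff_snd
    exact (((h1.mul h1).add (h2.mul h2)).add ((h3.mul h3).add (h4.mul h4))).contDiffAt
  rw [GG, hP, hD, ContinuousLinearMap.bilinearComp_apply, ContinuousLinearMap.comp_apply,
    ContinuousLinearMap.comp_apply, Function.comp_apply, ← hV.hol _ T _ hp (hT _),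
    hV.germ _ _ _ hg, hV.mul _ _ _ hq, hV.flat, ← gs_polar hι, hA, hA]
  simp only [Prod.smul_fst, Prod.smul_snd, Complex.real_smul, map_mul, Complex.conj_ofReal,
    Complex.mul_re, Complex.mul_im, Complex.ofReal_re, Complex.ofReal_im, Complex.conj_re,
    Complex.conj_im]
  linear_combination ((ι a).1.re * (ι b).1.re + (ι a).1.im * (ι b).1.im +
    (ι a).2.re * (ι b).2.re + (ι a).2.im * (ι b).2.im) * hκ

end Pool.Agent.MP_67f0e4_gt.D2
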