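import Pool.Agent.MP_67f0e4_gt.D2.Spec

/-! The chart at infinity: elementary properties. -/

open scoped ContDiff Topology ComplexConjugate
open Filter Set

namespace Pool.Agent.MP_67f0e4_gt.D2

noncomputable section

def lam_u (n : ℕ) (t : ℝ) (q : C2) : ℂ :=
  4 * conj (q.1 * q.2) ^ n * (t : ℂ) ^ n / (NN n q : ℂ) ^ 2

theorem lam_eq (n : ℕ) (t : ℝ) (q : C2) :
    lam n t q = -2 * (t : ℂ) ^ n / ((NN n q : ℂ) * (1 + (1 - lam_u n t q) ^ (2⁻¹ : ℂ))) := rfl

theorem lam_NN (n : ℕ) (q : C2) : NN n q = (‖q.1‖ ^ n) ^ 2 + (‖q.2‖ ^ n) ^ 2 := by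
  unfold NN
  rw [Complex.normSq_eq_norm_sq, Complex.normSq_eq_norm_sq, ← pow_mul, ← pow_mul, ← pow_mul,
    ← pow_mul, mul_comm 2 n]

theorem lam_NNc (n : ℕ) (q : C2) :
    (NN n q : ℂ) = (q.1 * conj q.1) ^ n + (q.2 * conj q.2) ^ n := by
  unfold NN
  rw [Complex.mul_conj, Complex.mul_conj]
  push_cast
  rfl

theorem lam_zle (n : ℕ) (q : C2) : ‖q.1 * q.2‖ ^ n ≤ NN n q / 2 := by
  rw [lam_NN, norm_mul, mul_pow]
  nlinarith [sq_nonneg (‖q.1‖ ^ n - ‖q.2‖ ^ n)]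

theorem lam_pos {n : ℕ} {t : ℝ} {q : C2} (h : (t, q) ∈ Om n) : 0 < NN n q := by
  have h1 : 8 * |t| ^ n < NN n q := h
  have : 0 ≤ |t| ^ n := by positivity
  linarith

theorem lam_u_small {n : ℕ} {t : ℝ} {q : C2} (h : (t, q) ∈ Om n) : ‖lam_u n t q‖ < 1 := by
  have h1 : 8 * |t| ^ n < NN n q := h
  have hN := lam_pos h
  have hz := lam_zle n q
  have ht : 0 ≤ |t| ^ n := by positivity
  have hz0 : 0 ≤ ‖q.1 * q.2‖ ^ n := by positivity
  unfold lam_u
  rw [norm_div, norm_mul, norm_mul, norm_pow, norm_pow, norm_pow, Complex.norm_conj,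
    Complex.norm_real, Complex.norm_real, Real.norm_eq_abs, Real.norm_eq_abs, abs_of_pos hN,
    div_lt_one (by positivity)]
  have h4 : ‖(4 : ℂ)‖ = 4 := by simp
  rw [h4]
  nlinarith [mul_le_mul_of_nonneg_right hz ht]

theorem lam_slit {n : ℕ} {t : ℝ} {q : C2} (h : (t, q) ∈ Om n) :
    1 - lam_u n t q ∈ Complex.slitPlane := by
  have h1 := lam_u_small h
  have h2 := Complex.re_le_norm (lam_u n t q)
  left
  simp only [Complex.sub_re, Complex.one_re]
  linarith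

theorem lam_rho_norm (w : ℂ) : 1 ≤ ‖1 + w ^ (2⁻¹ : ℂ)‖ := by
  have h1 : 0 ≤ (w ^ (2⁻¹ : ℂ)).re := by
    rw [Complex.cpow_inv_two_re]
    positivity
  have h2 := Complex.re_le_norm (1 + w ^ (2⁻¹ : ℂ))
  simp only [Complex.add_re, Complex.one_re] at h2
  linarith

theorem lam_rho_ne (w : ℂ) : 1 + w ^ (2⁻¹ : ℂ) ≠ 0 := by
  intro h
  have := lam_rho_norm w
  rw [h, norm_zero] at this
  linarith

theorem lam_quad {n : ℕ} {t : ℝ} {q : C2} (h : (t, q) ∈ Om n) :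
    conj (q.1 * q.2) ^ n * lam n t q ^ 2 + (NN n q : ℂ) * lam n t q + (t : ℂ) ^ n = 0 := by
  have hN : (NN n q : ℂ) ≠ 0 := by exact_mod_cast (lam_pos h).ne'
  have hr := lam_rho_ne (1 - lam_u n t q)
  have hsq : ((1 - lam_u n t q) ^ (2⁻¹ : ℂ)) ^ 2 = 1 - lam_u n t q :=
    Complex.cpow_ofNat_inv_pow _ 2
  have hu : (NN n q : ℂ) ^ 2 * lam_u n t q = 4 * conj (q.1 * q.2) ^ n * (t : ℂ) ^ n := by
    unfold lam_u
    field_simp
  rw [lam_eq]
  generalize (1 - lam_u n t q) ^ (2⁻¹ : ℂ) = ρ at hr hsq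
  generalize conj (q.1 * q.2) ^ n = Z at hu
  generalize (t : ℂ) ^ n = T at hu
  generalize (NN n q : ℂ) = N at hu hN
  field_simp
  linear_combination (T * N ^ 2) * hsq - T * hu

theorem lam_small {n : ℕ} {t : ℝ} {q : C2} (h : (t, q) ∈ Om n) :
    ‖lam n t q‖ ≤ 2 * |t| ^ n / NN n q := by
  have hN := lam_pos h
  have hr := lam_rho_norm (1 - lam_u n t q)
  rw [lam_eq, norm_div, norm_mul, norm_mul, norm_pow, Complex.norm_real, Complex.norm_real,
    Real.norm_eq_abs, Real.norm_eq_abs, abs_of_pos hN]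
  have h2 : ‖(-2 : ℂ)‖ = 2 := by simp
  rw [h2]
  apply div_le_div_of_nonneg_left (by positivity) hN
  nlinarith

theorem lam_NN_smooth (n : ℕ) : ContDiff ℝ ∞ (fun a : ℝ × C2 => (NN n a.2 : ℂ)) := by
  have hc : ContDiff ℝ ∞ (fun z : ℂ => conj z) := Complex.conjCLE.contDiff
  have h1 : ContDiff ℝ ∞ (fun a : ℝ × C2 => a.2.1) := contDiff_snd.fst
  have h2 : ContDiff ℝ ∞ (fun a : ℝ × C2 => a.2.2) := contDiff_snd.snd
  simp only [lam_NNc]
  exact ((h1.mul (hc.comp h1)).pow n).add ((h2.mul (hc.comp h2)).pow n)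

theorem lam_smooth (n : ℕ) : ContDiffOn ℝ ∞ (fun a : ℝ × C2 => Ph n a.1 a.2) (Om n) := by
  intro a ha
  apply ContDiffAt.contDiffWithinAt
  have ha' : (a.1, a.2) ∈ Om n := ha
  have hN : (NN n a.2 : ℂ) ≠ 0 := by exact_mod_cast (lam_pos ha').ne'
  have hc : ContDiff ℝ ∞ (fun z : ℂ => conj z) := Complex.conjCLE.contDiff
  have h1 : ContDiff ℝ ∞ (fun a : ℝ × C2 => a.2.1) := contDiff_snd.fst
  have h2 : ContDiff ℝ ∞ (fun a : ℝ × C2 => a.2.2) := contDiff_snd.snd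
  have ht : ContDiff ℝ ∞ (fun a : ℝ × C2 => (a.1 : ℂ)) :=
    Complex.ofRealCLM.contDiff.comp contDiff_fst
  have hNs := lam_NN_smooth n
  have hu : ContDiffAt ℝ ∞ (fun a : ℝ × C2 => lam_u n a.1 a.2) a := by
    unfold lam_u
    simp only [div_eq_mul_inv]
    exact (((contDiff_const.mul ((hc.comp (h1.mul h2)).pow n)).mul (ht.pow n)).contDiffAt).mul
      ((hNs.pow 2).contDiffAt.inv (pow_ne_zero 2 hN))
  have hp : ContDiffAt ℝ ∞ (fun w : ℂ => w ^ (2⁻¹ : ℂ)) (1 - lam_u n a.1 a.2) := by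
    have : AnalyticAt ℂ (fun w : ℂ => w ^ (2⁻¹ : ℂ)) (1 - lam_u n a.1 a.2) :=
      analyticAt_id.cpow analyticAt_const (lam_slit ha')
    exact this.contDiffAt.restrict_scalars ℝ
  have hρ : ContDiffAt ℝ ∞ (fun a : ℝ × C2 => (1 - lam_u n a.1 a.2) ^ (2⁻¹ : ℂ)) a :=
    ContDiffAt.comp (g := fun w : ℂ => w ^ (2⁻¹ : ℂ))
      (f := fun a : ℝ × C2 => 1 - lam_u n a.1 a.2) a hp (contDiffAt_const.sub hu)
  have hl : ContDiffAt ℝ ∞ (fun a : ℝ × C2 => lam n a.1 a.2) a := by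
    simp only [lam_eq, div_eq_mul_inv]
    exact ((contDiff_const.mul (ht.pow n)).contDiffAt).mul
      ((hNs.contDiffAt.mul (contDiffAt_const.add hρ)).inv (mul_ne_zero hN (lam_rho_ne _)))
  unfold Ph
  exact (((h1.pow n).contDiffAt).add (hl.mul ((hc.comp h2).pow n).contDiffAt)).prodMk
    ((((h2.pow n).contDiffAt).add (hl.mul ((hc.comp h1).pow n).contDiffAt)).prodMk
      (h1.mul h2).contDiffAt)

theorem lam_homN (n : ℕ) (c : ℝ) (q : C2) : NN n (c • q) = (c ^ 2) ^ n * NN n q := by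
  unfold NN
  simp only [Prod.smul_fst, Prod.smul_snd, Complex.real_smul, Complex.normSq_mul,
    Complex.normSq_ofReal, mul_pow]
  ring

theorem lam_hom_lam (n : ℕ) (c : ℝ) (hc : 0 < c) (t : ℝ) (q : C2) :
    lam n (c ^ 2 * t) (c • q) = lam n t q := by
  have hc' : ((c : ℂ) ^ 2) ^ n ≠ 0 := by
    have : (c : ℂ) ≠ 0 := by exact_mod_cast hc.ne'
    positivity
  have hu : lam_u n (c ^ 2 * t) (c • q) = lam_u n t q := by
    unfold lam_u
    rw [lam_homN]
    simp only [Prod.smul_fst, Prod.smul_snd, Complex.real_smul, map_mul, Complex.conj_ofReal]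
    push_cast
    rw [← mul_div_mul_left (4 * (conj q.1 * conj q.2) ^ n * (t : ℂ) ^ n) ((NN n q : ℂ) ^ 2)
      (pow_ne_zero 2 hc')]
    congr 1 <;> ring
  rw [lam_eq, lam_eq, hu, lam_homN]
  push_cast
  rw [← mul_div_mul_left (-2 * (t : ℂ) ^ n) _ hc']
  congr 1 <;> ring

theorem lam_size {n : ℕ} (q : C2) (h : 40 ≤ NN n q) :
    NN n q / 2 ≤ Complex.normSq (Ph n 1 q).1 + Complex.normSq (Ph n 1 q).2.1 := by
  have hO : ((1 : ℝ), q) ∈ Om n := by
    show 8 * |(1 : ℝ)| ^ n < NN n q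
    simp only [abs_one, one_pow]
    linarith
  have hl := lam_small hO
  simp only [abs_one, one_pow] at hl
  have hl2 : ‖lam n 1 q‖ ≤ 1 / 20 := by
    refine hl.trans ?_
    rw [div_le_div_iff₀ (by linarith) (by norm_num)]
    linarith
  have key : ∀ A B : ℂ, ‖A‖ ^ n ≤ ‖A ^ n + lam n 1 q * conj B ^ n‖ + ‖B‖ ^ n / 20 := by
    intro A B
    have e1 : A ^ n = (A ^ n + lam n 1 q * conj B ^ n) - lam n 1 q * conj B ^ n := by ring
    have e2 : ‖lam n 1 q * conj B ^ n‖ ≤ ‖B‖ ^ n / 20 := by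
      rw [norm_mul, norm_pow, Complex.norm_conj]
      have : 0 ≤ ‖B‖ ^ n := by positivity
      nlinarith
    have e3 := norm_sub_le (A ^ n + lam n 1 q * conj B ^ n) (lam n 1 q * conj B ^ n)
    rw [← e1, norm_pow] at e3
    linarith
  have k1 := key q.1 q.2
  have k2 := key q.2 q.1
  rw [lam_NN, Complex.normSq_eq_norm_sq, Complex.normSq_eq_norm_sq]
  show _ ≤ ‖q.1 ^ n + lam n 1 q * conj q.2 ^ n‖ ^ 2 + ‖q.2 ^ n + lam n 1 q * conj q.1 ^ n‖ ^ 2
  have a0 : 0 ≤ ‖q.1‖ ^ n := by positivity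
  have b0 : 0 ≤ ‖q.2‖ ^ n := by positivity
  have x0 := norm_nonneg (q.1 ^ n + lam n 1 q * conj q.2 ^ n)
  have y0 := norm_nonneg (q.2 ^ n + lam n 1 q * conj q.1 ^ n)
  generalize ‖q.1 ^ n + lam n 1 q * conj q.2 ^ n‖ = X at *
  generalize ‖q.2 ^ n + lam n 1 q * conj q.1 ^ n‖ = Y at *
  generalize ‖q.1‖ ^ n = a at *
  generalize ‖q.2‖ ^ n = b at *
  have s1 : a ^ 2 ≤ (X + b / 20) ^ 2 := pow_le_pow_left₀ a0 k1 2
  have s2 : b ^ 2 ≤ (Y + a / 20) ^ 2 := pow_le_pow_left₀ b0 k2 2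
  nlinarith [sq_nonneg (X - b / 10), sq_nonneg (Y - a / 10)]

theorem slam : SLAM := by
  intro n hn
  refine ⟨?_, lam_smooth n, fun t q h => lam_quad h, fun t q h => lam_small h, ?_, lam_homN n, ?_,
    ?_, ?_, ?_, lam_zle n, ?_, ?_, fun q h => lam_size q h⟩
  · have h1 : Continuous (fun a : ℝ × C2 => NN n a.2) := by
      unfold NN
      fun_prop
    exact isOpen_lt (by fun_prop) h1
  · intro t q h
    have hq := lam_quad h
    rw [lam_NNc] at hq
    simp only [Ph, map_mul, mul_pow] at hq ⊢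
    linear_combination hq
  · intro c hc t q
    unfold Ph
    rw [lam_hom_lam n c hc]
    simp only [Prod.smul_fst, Prod.smul_snd, Complex.real_smul, map_mul, Complex.conj_ofReal,
      mul_pow]
    refine Prod.ext ?_ (Prod.ext ?_ ?_) <;> simp only [] <;> ring
  · intro q
    have : lam n 0 q = 0 := by
      rw [lam_eq]
      simp [zero_pow (by omega : n ≠ 0)]
    simp [Ph, this]
  · intro t q
    have h1 : NN n (q.2, q.1) = NN n q := by
      unfold NN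
      ring
    have h2 : lam n t (q.2, q.1) = lam n t q := by
      unfold lam
      rw [h1, mul_comm q.1 q.2]
    unfold Ph
    rw [h2, mul_comm q.1 q.2]
  · intro ζ hζ t q
    have h0 : ζ ≠ 0 := by
      rintro rfl
      rw [zero_pow (by omega)] at hζ
      exact zero_ne_one hζ
    have e1 : (ζ * q.1) ^ n = q.1 ^ n := by rw [mul_pow, hζ, one_mul]
    have e2 : (ζ⁻¹ * q.2) ^ n = q.2 ^ n := by rw [mul_pow, inv_pow, hζ, inv_one, one_mul]
    have e3 : ζ * q.1 * (ζ⁻¹ * q.2) = q.1 * q.2 := by field_simp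
    have h1 : NN n (ζ * q.1, ζ⁻¹ * q.2) = NN n q := by
      unfold NN
      simp only [← map_pow, e1, e2]
    have h2 : lam n t (ζ * q.1, ζ⁻¹ * q.2) = lam n t q := by
      unfold lam
      rw [h1]
      simp only [e3]
    unfold Ph
    rw [h2]
    simp only [← map_pow, e1, e2, e3]
  · intro q
    unfold NN
    have a0 := Complex.normSq_nonneg q.1
    have b0 := Complex.normSq_nonneg q.2
    have a1 := pow_nonneg a0 n
    have b1 := pow_nonneg b0 n
    rcases le_total (Complex.normSq q.1) (Complex.normSq q.2) with h | h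
    · have : ((Complex.normSq q.1 + Complex.normSq q.2) / 2) ^ n ≤ Complex.normSq q.2 ^ n :=
        pow_le_pow_left₀ (by positivity) (by linarith) n
      linarith
    · have : ((Complex.normSq q.1 + Complex.normSq q.2) / 2) ^ n ≤ Complex.normSq q.1 ^ n :=
        pow_le_pow_left₀ (by positivity) (by linarith) n
      linarith
  · intro q
    exact pow_add_pow_le (Complex.normSq_nonneg _) (Complex.normSq_nonneg _) (by omega)

end

end Pool.Agent.MP_67f0e4_gt.D2
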