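import Pool.Agent.MP_67f0e4_gt.D2.Spec

/-! Rules of calculation for the Levi form. -/

open scoped ContDiff Topology ComplexConjugate
open Filter Set

namespace Pool.Agent.MP_67f0e4_gt.D2

theorem lev_apply (f : C2 → ℝ) (q a b : C2) : levL f q a b = fderiv ℝ (fderiv ℝ f) q a b +
    fderiv ℝ (fderiv ℝ f) q (Complex.I • a) (Complex.I • b) := by
  simp [levL, JJ]

theorem lev_has {f : C2 → ℝ} {q : C2} (h : ContDiffAt ℝ 2 f q) :
    HasFDerivAt (fderiv ℝ f) (fderiv ℝ (fderiv ℝ f) q) q :=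
  ((h.fderiv_right (m := 1) (by norm_num)).differentiableAt (by norm_num)).hasFDerivAt

theorem lev_d2 {f : C2 → ℝ} {q : C2} (h : ContDiffAt ℝ 2 f q) (a b : C2) :
    fderiv ℝ (fun y => fderiv ℝ f y b) q a = fderiv ℝ (fderiv ℝ f) q a b := by
  rw [((lev_has h).clm_apply (hasFDerivAt_const b q)).fderiv]
  simp

theorem lev_ev {f : C2 → ℝ} {q : C2} (h : ContDiffAt ℝ 2 f q) :
    ∀ᶠ y in 𝓝 q, DifferentiableAt ℝ f y :=
  (h.eventually (by simp)).mono fun _ hy => hy.differentiableAt (by norm_num)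

theorem lev_mul (c : ℝ) {f : C2 → ℝ} {q : C2} (h : ContDiffAt ℝ 2 f q) (a b : C2) :
    fderiv ℝ (fderiv ℝ fun u => c * f u) q a b = c * fderiv ℝ (fderiv ℝ f) q a b := by
  have h1 : (fderiv ℝ fun u => c * f u) =ᶠ[𝓝 q] fun y => c • fderiv ℝ f y :=
    (lev_ev h).mono fun y hy => (hy.hasFDerivAt.const_mul c).fderiv
  have h2 : HasFDerivAt (fun y => c • fderiv ℝ f y) (c • fderiv ℝ (fderiv ℝ f) q) q :=
    (lev_has h).const_smul c
  rw [h1.fderiv_eq, h2.fderiv]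
  simp

theorem lev_comp {f : C2 → ℝ} {T : C2 → C2} {u : C2} (h : ContDiffAt ℝ 2 f (T u))
    (hT : AnalyticAt ℂ T u) (a b : C2) :
    fderiv ℝ (fderiv ℝ fun w => f (T w)) u a b =
      fderiv ℝ (fderiv ℝ f) (T u) (fderiv ℂ T u a) (fderiv ℂ T u b) +
        fderiv ℝ f (T u) (fderiv ℂ (fderiv ℂ T) u a b) := by
  have hc : ContDiffAt ℝ 2 T u := (hT.contDiffAt (n := 2)).restrict_scalars ℝ
  have h0 : ContDiffAt ℝ 2 (fun w => f (T w)) u := h.comp u hc
  have h1 : (fun w => fderiv ℝ (fun w => f (T w)) w b) =ᶠ[𝓝 u]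
      fun w => fderiv ℝ f (T w) (fderiv ℂ T w b) := by
    filter_upwards [hT.eventually_analyticAt, hT.continuousAt.eventually (lev_ev h)] with w w1 w2
    have := (w2.hasFDerivAt.comp w (w1.differentiableAt.hasFDerivAt.restrictScalars ℝ)).fderiv
    exact DFunLike.congr_fun this b
  have h2 : HasFDerivAt (fun w => fderiv ℂ T w b) _ u :=
    (hT.fderiv.differentiableAt.hasFDerivAt.clm_apply (hasFDerivAt_const b u)).restrictScalars ℝ
  have h3 := ((lev_has h).comp u (hT.differentiableAt.hasFDerivAt.restrictScalars ℝ)).clm_apply h2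
  rw [← lev_d2 h0, h1.fderiv_eq]
  refine (DFunLike.congr_fun h3.fderiv a).trans ?_
  simp [add_comm]

theorem lev_hol (f : C2 → ℝ) (T : C2 → C2) (u : C2) (h : ContDiffAt ℝ 2 f (T u))
    (hT : AnalyticAt ℂ T u) (a b : C2) :
    levL (fun w => f (T w)) u a b = levL f (T u) (fderiv ℝ T u a) (fderiv ℝ T u b) := by
  have e : ∀ v, fderiv ℝ T u v = fderiv ℂ T u v := fun v =>
    DFunLike.congr_fun (hT.differentiableAt.hasFDerivAt.restrictScalars ℝ).fderiv v
  have e2 : fderiv ℂ (fderiv ℂ T) u (Complex.I • a) (Complex.I • b) =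
      -fderiv ℂ (fderiv ℂ T) u a b := by
    rw [map_smul, map_smul, smul_apply, smul_smul, Complex.I_mul_I,
      neg_one_smul]
  rw [lev_apply, lev_apply, lev_comp h hT, lev_comp h hT, e, e, e2, map_neg,
    (fderiv ℂ T u).map_smul, (fderiv ℂ T u).map_smul]
  ring

theorem lev_sq (l : C2 →L[ℝ] ℝ) (y : C2) :
    HasFDerivAt (fun u => l u * l u) ((2 * l y) • l) y := by
  have h := l.hasFDerivAt.mul (l.hasFDerivAt (x := y))
  rw [← add_smul, ← two_mul] at h
  exact h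

theorem lev_flat2 (q a b : C2) :
    fderiv ℝ (fderiv ℝ fun u : C2 => Complex.normSq u.1 + Complex.normSq u.2) q a b =
      2 * (a.1.re * b.1.re + a.1.im * b.1.im + a.2.re * b.2.re + a.2.im * b.2.im) := by
  let l1 : C2 →L[ℝ] ℝ := Complex.reCLM.comp (ContinuousLinearMap.fst ℝ ℂ ℂ)
  let l2 : C2 →L[ℝ] ℝ := Complex.imCLM.comp (ContinuousLinearMap.fst ℝ ℂ ℂ)
  let l3 : C2 →L[ℝ] ℝ := Complex.reCLM.comp (ContinuousLinearMap.snd ℝ ℂ ℂ)
  let l4 : C2 →L[ℝ] ℝ := Complex.imCLM.comp (ContinuousLinearMap.snd ℝ ℂ ℂ)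
  have e : (fun u : C2 => Complex.normSq u.1 + Complex.normSq u.2) =
      fun u => (l1 u * l1 u + l2 u * l2 u) + (l3 u * l3 u + l4 u * l4 u) := by
    funext u
    rw [Complex.normSq_apply, Complex.normSq_apply]
    rfl
  have hc : ContDiff ℝ 2 fun u => (l1 u * l1 u + l2 u * l2 u) + (l3 u * l3 u + l4 u * l4 u) :=
    ((l1.contDiff.mul l1.contDiff).add (l2.contDiff.mul l2.contDiff)).add
      ((l3.contDiff.mul l3.contDiff).add (l4.contDiff.mul l4.contDiff))
  have h1 : (fun y => fderiv ℝ (fun u => (l1 u * l1 u + l2 u * l2 u) +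
      (l3 u * l3 u + l4 u * l4 u)) y b) =
      ((2 * l1 b) • l1 + (2 * l2 b) • l2 + (2 * l3 b) • l3 + (2 * l4 b) • l4 : C2 →L[ℝ] ℝ) := by
    funext y
    have := (((lev_sq l1 y).add (lev_sq l2 y)).add ((lev_sq l3 y).add (lev_sq l4 y))).fderiv
    refine (DFunLike.congr_fun this b).trans ?_
    simp only [add_apply, smul_apply, smul_eq_mul]
    ring
  rw [e, ← lev_d2 hc.contDiffAt, h1, ContinuousLinearMap.fderiv]
  simp only [add_apply, smul_apply, smul_eq_mul]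
  change 2 * b.1.re * a.1.re + 2 * b.1.im * a.1.im + 2 * b.2.re * a.2.re + 2 * b.2.im * a.2.im = _
  ring

theorem lev_step {Y : Type} [NormedAddCommGroup Y] [NormedSpace ℝ Y] (H : ℝ × C2 → Y)
    (a : ℝ × C2) (h : ContDiffAt ℝ ∞ H a) :
    ContDiffAt ℝ ∞ (fun b : ℝ × C2 => fderiv ℝ (fun u => H (b.1, u)) b.2) a := by
  have h1 : ContDiffAt ℝ ∞ (fun z : (ℝ × C2) × C2 => (z.1.1, z.2)) (a, a.2) :=
    contDiffAt_fst.fst.prodMk contDiffAt_snd
  have h2 : ContDiffAt ℝ ∞ (Function.uncurry fun (b : ℝ × C2) (u : C2) => H (b.1, u)) (a, a.2) :=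
    ContDiffAt.comp (g := H) (a, a.2) h h1
  exact ContDiffAt.fderiv h2 contDiffAt_snd (by simp)

theorem lev_smooth (F : ℝ × C2 → ℝ) (a : ℝ × C2) (h : ContDiffAt ℝ ∞ F a) :
    ContDiffAt ℝ ∞ (fun b : ℝ × C2 => levL (fun u => F (b.1, u)) b.2) a := by
  have h2 : ContDiffAt ℝ ∞
      (fun b : ℝ × C2 => fderiv ℝ (fderiv ℝ fun u => F (b.1, u)) b.2) a :=
    lev_step _ a (lev_step F a h)
  have e : ∀ B : C2 →L[ℝ] C2 →L[ℝ] ℝ, B.bilinearComp JJ JJ =
      ((ContinuousLinearMap.compL ℝ C2 C2 ℝ).flip JJ).comp (B.comp JJ) := fun B =>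
    ContinuousLinearMap.ext fun _ => ContinuousLinearMap.ext fun _ => rfl
  simp only [levL, e]
  exact h2.add (contDiffAt_const.clm_comp (h2.clm_comp contDiffAt_const))

theorem slev : SLEV where
  apply := lev_apply
  bridge f q h a b := by
    rw [lev_apply, ← lev_d2 h, ← lev_d2 h]
    rfl
  germ f g q h := by
    unfold levL
    rw [h.fderiv.fderiv_eq]
  mul c f q h a b := by
    rw [lev_apply, lev_apply, lev_mul c h, lev_mul c h, mul_add]
  hol := lev_hol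
  flat q a b := by
    rw [lev_apply, lev_flat2, lev_flat2]
    simp
    ring
  smooth := lev_smooth

end Pool.Agent.MP_67f0e4_gt.D2
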