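import Pool.Agent.MP_67f0e4_gt.D2.Spec

/-! Row LIFT: maps from the outside of a ball to the end lift through the end map. -/

open Filter Set Topology

namespace Pool.Agent.MP_67f0e4_gt.D2

theorem lift_star {V L B : Type} [NormedAddCommGroup V] [NormedSpace ℝ V] [TopologicalSpace L]
    [TopologicalSpace B] {p : L → B} (cov : IsCoveringMap p) {U : Set V} (hU : IsOpen U) {x : V}
    (hs : StarConvex ℝ x U) {f : V → B} (hf : ContinuousOn f U) {a : V} (ha : a ∈ U) (e : L)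
    (he : p e = f a) : ∃ G : V → L, ContinuousOn G U ∧ G a = e ∧ ∀ y ∈ U, p (G y) = f y := by
  classical
  have := hs.contractibleSpace ⟨a, ha⟩
  have := hU.locallyPathConnectedSpace
  obtain ⟨F, ⟨hF0, hF⟩, -⟩ := cov.existsUnique_continuousMap_lifts
    (⟨U.domRestrict f, hf.domRestrict⟩ : C(U, B)) ⟨a, ha⟩ e he
  refine ⟨fun y => if h : y ∈ U then F ⟨y, h⟩ else e, ?_, ?_, fun y hy => ?_⟩
  · rw [continuousOn_iff_continuous_domRestrict]
    refine F.continuous.congr fun y => ?_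
    simp [y.2]
  · simp [ha, hF0]
  · simp only [hy, dif_pos]
    exact congrFun hF ⟨y, hy⟩

/-- The complement of the ray in direction `N`. -/
def lift_U (N : E4) : Set E4 := {x | inner ℝ x N < ‖x‖}

theorem lift_U_open (N : E4) : IsOpen (lift_U N) :=
  isOpen_lt (continuous_id.inner continuous_const) continuous_norm

theorem lift_U_star {N : E4} (hN : ‖N‖ = 1) : StarConvex ℝ (-N) (lift_U N) := by
  intro y hy a b ha hb hab
  have hNN : inner ℝ N N = (1 : ℝ) := by rw [real_inner_self_eq_norm_sq, hN]; norm_num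
  have hy' : inner ℝ y N < ‖y‖ := hy
  change inner ℝ (a • (-N) + b • y) N < ‖a • (-N) + b • y‖
  rcases hb.eq_or_lt with rfl | hb
  · have ha1 : a = 1 := by linarith
    simp [ha1, hN]
  · have h1 : ‖b • y‖ ≤ ‖a • (-N) + b • y‖ + ‖a • N‖ := by
      have := norm_add_le (a • (-N) + b • y) (a • N)
      rwa [show a • (-N) + b • y + a • N = b • y by module] at this
    rw [norm_smul, norm_smul, hN, Real.norm_eq_abs, Real.norm_eq_abs, abs_of_pos hb,
      abs_of_nonneg ha] at h1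
    rw [inner_add_left, real_inner_smul_left, real_inner_smul_left, inner_neg_left, hNN]
    nlinarith [mul_lt_mul_of_pos_left hy' hb]

theorem lift_U_union (N : E4) : lift_U N ∪ lift_U (-N) = {x : E4 | x ≠ 0} := by
  ext x
  simp only [lift_U, Set.mem_union, Set.mem_ofPred_eq, inner_neg_right]
  constructor
  · rintro (h | h) h0 <;> simp [h0] at h
  · intro h
    have := norm_pos_iff.2 h
    by_contra hc
    rw [not_or, not_lt, not_lt] at hc
    linarith [hc.1, hc.2]

theorem lift_U_inter {N : E4} (hN : ‖N‖ = 1) :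
    lift_U N ∩ lift_U (-N) = (Submodule.span ℝ {N} : Set E4)ᶜ := by
  have hNN : inner ℝ N N = (1 : ℝ) := by rw [real_inner_self_eq_norm_sq, hN]; norm_num
  ext x
  simp only [lift_U, Set.mem_inter_iff, Set.mem_ofPred_eq, inner_neg_right,
    Set.mem_compl_iff, SetLike.mem_coe, Submodule.mem_span_singleton]
  constructor
  · rintro ⟨h1, h2⟩ ⟨s, hs⟩
    rw [← hs, real_inner_smul_left, hNN, norm_smul, hN, Real.norm_eq_abs] at h1 h2
    rcases abs_cases s with h | h <;> linarith [h.1]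
  · intro h
    have key : ∀ M : E4, ‖M‖ = 1 → ¬ inner ℝ x M < ‖x‖ → x = ‖x‖ • M := by
      intro M hM h1
      have h2 := real_inner_le_norm x M
      have h3 : inner ℝ x M = ‖x‖ * ‖M‖ := by
        rw [hM, mul_one] at h2 ⊢
        linarith [not_lt.1 h1]
      have h4 := inner_eq_norm_mul_iff_real.1 h3
      rwa [hM, one_smul] at h4
    constructor
    · by_contra h1
      exact h ⟨_, (key N hN h1).symm⟩
    · by_contra h1
      have h2 := key (-N) (by rw [norm_neg, hN]) (by rwa [inner_neg_right])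
      exact h ⟨-‖x‖, by rw [neg_smul, ← smul_neg]; exact h2.symm⟩

theorem lift_D {L B : Type} [TopologicalSpace L] [TopologicalSpace B] {p : L → B}
    (cov : IsCoveringMap p) (hp : Function.Surjective p) {f : E4 → B}
    (hf : ContinuousOn f {x | x ≠ 0}) :
    ∃ G : E4 → L, ContinuousOn G {x | x ≠ 0} ∧ ∀ y, y ≠ 0 → p (G y) = f y := by
  classical
  obtain ⟨N, hN⟩ : ∃ N : E4, ‖N‖ = 1 := ⟨EuclideanSpace.single 0 1, by simp⟩
  have hN' : ‖-N‖ = 1 := by rw [norm_neg, hN]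
  have hN0 : N ≠ 0 := fun h => by simp [h] at hN
  have hrank : 1 < Module.rank ℝ (E4 ⧸ Submodule.span ℝ {N}) := by
    have h1 := Submodule.finrank_quotient_add_finrank (Submodule.span ℝ {N})
    rw [finrank_span_singleton hN0, finrank_euclideanSpace_fin] at h1
    rw [← Module.finrank_eq_rank]
    exact_mod_cast (by omega : 1 < Module.finrank ℝ (E4 ⧸ Submodule.span ℝ {N}))
  have hpc := isPathConnected_compl_of_one_lt_codim hrank
  have hI : IsPreconnected (lift_U N ∩ lift_U (-N)) := by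
    rw [lift_U_inter hN]
    exact hpc.isConnected.isPreconnected
  obtain ⟨a, ha1, ha2⟩ : (lift_U N ∩ lift_U (-N)).Nonempty := by
    rw [lift_U_inter hN]
    exact hpc.nonempty
  have s1 := lift_U_star hN
  have s2 := lift_U_star hN'
  rw [← lift_U_union N] at hf
  obtain ⟨e, he⟩ := hp (f a)
  obtain ⟨G₁, c1, e1, l1⟩ :=
    lift_star cov (lift_U_open N) s1 (hf.mono Set.subset_union_left) ha1 e he
  obtain ⟨G₂, c2, e2, l2⟩ :=
    lift_star cov (lift_U_open (-N)) s2 (hf.mono Set.subset_union_right) ha2 e he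
  have hE : Set.EqOn G₁ G₂ (lift_U N ∩ lift_U (-N)) :=
    cov.eqOn_of_comp_eqOn hI (c1.mono Set.inter_subset_left) (c2.mono Set.inter_subset_right)
      (fun y hy => (l1 y hy.1).trans (l2 y hy.2).symm) ⟨ha1, ha2⟩ (e1.trans e2.symm)
  have g1 : Set.EqOn (fun y => if y ∈ lift_U N then G₁ y else G₂ y) G₁ (lift_U N) :=
    fun y hy => if_pos hy
  have g2 : Set.EqOn (fun y => if y ∈ lift_U N then G₁ y else G₂ y) G₂ (lift_U (-N)) := by
    intro y hy
    by_cases h : y ∈ lift_U N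
    · exact (if_pos h).trans (hE ⟨h, hy⟩)
    · exact if_neg h
  refine ⟨fun y => if y ∈ lift_U N then G₁ y else G₂ y, ?_, fun y hy => ?_⟩
  · rw [← lift_U_union N]
    exact (c1.congr g1).union_of_isOpen (c2.congr g2) (lift_U_open N) (lift_U_open (-N))
  · have h : y ∈ lift_U N ∪ lift_U (-N) := by rw [lift_U_union N]; exact hy
    rcases h with h | h
    · exact (congrArg p (g1 h)).trans (l1 y h)
    · exact (congrArg p (g2 h)).trans (l2 y h)

/-- The radial map that changes the norm by `c`. -/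
noncomputable def lift_rad (c : ℝ) (v : E4) : E4 := (1 + c / ‖v‖) • v

theorem lift_rad_norm {c : ℝ} {v : E4} (hv : v ≠ 0) (h : 0 < ‖v‖ + c) :
    ‖lift_rad c v‖ = ‖v‖ + c := by
  have h0 := norm_pos_iff.2 hv
  have h1 : 1 + c / ‖v‖ = (‖v‖ + c) / ‖v‖ := by field_simp
  rw [lift_rad, norm_smul, h1, Real.norm_eq_abs, abs_of_pos (div_pos h h0),
    div_mul_cancel₀ _ h0.ne']

theorem lift_rad_cont (c : ℝ) : ContinuousOn (lift_rad c) {v | v ≠ 0} :=
  (continuousOn_const.add (continuousOn_const.div continuous_norm.continuousOn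
    fun _ hv => norm_ne_zero_iff.2 hv)).smul continuousOn_id

theorem lift_rad_rad {c : ℝ} {v : E4} (hv : v ≠ 0) (h : 0 < ‖v‖ + -c) :
    lift_rad c (lift_rad (-c) v) = v := by
  have h0 := norm_pos_iff.2 hv
  have h1 : (1 + c / (‖v‖ + -c)) * (1 + -c / ‖v‖) = 1 := by
    field_simp
    ring
  rw [lift_rad, lift_rad_norm hv h, lift_rad, smul_smul, h1, one_smul]

theorem lift_out {L B : Type} [TopologicalSpace L] [TopologicalSpace B] {p : L → B}
    (cov : IsCoveringMap p) (hp : Function.Surjective p) {ρ : ℝ} (hρ : 0 < ρ) {f : E4 → B}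
    (hf : ContinuousOn f {x | ρ < ‖x‖}) :
    ∃ G : E4 → L, ContinuousOn G {x | ρ < ‖x‖} ∧ ∀ y, ρ < ‖y‖ → p (G y) = f y := by
  have h1 : MapsTo (lift_rad ρ) {v | v ≠ 0} {x | ρ < ‖x‖} := fun v hv => by
    have h0 := norm_pos_iff.2 hv
    change ρ < ‖lift_rad ρ v‖
    rw [lift_rad_norm hv (by linarith)]
    linarith
  have h2 : ∀ v : E4, ρ < ‖v‖ → v ≠ 0 := fun v hv => norm_pos_iff.1 (hρ.trans hv)
  have h3 : MapsTo (lift_rad (-ρ)) {x | ρ < ‖x‖} {v | v ≠ 0} := fun v hv => by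
    have h0 : ρ < ‖v‖ := hv
    refine norm_pos_iff.1 ?_
    rw [lift_rad_norm (h2 v hv) (by linarith)]
    linarith
  obtain ⟨G, hG, hl⟩ := lift_D cov hp (hf.comp (lift_rad_cont ρ) h1)
  refine ⟨G ∘ lift_rad (-ρ), hG.comp ((lift_rad_cont (-ρ)).mono h2) h3, fun y hy => ?_⟩
  exact (hl _ (h3 hy)).trans (congrArg f (lift_rad_rad (h2 y hy) (by linarith)))

/-- The action on the outside of the ball. -/
@[reducible] noncomputable def lift_act (Γ : Subgroup (E4 ≃ₗᵢ[ℝ] E4)) (R : ℝ) :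
    MulAction Γ {v : E4 // R < ‖v‖} where
  smul γ a := ⟨γ.1 a.1, by rw [γ.1.norm_map]; exact a.2⟩
  one_smul _ := rfl
  mul_smul _ _ _ := rfl

/-- The end map onto its image. -/
def lift_p {N : Type} (R : ℝ) (Φ : E4 → N) (a : {v : E4 // R < ‖v‖}) :
    ↥(Φ '' {w | R < ‖w‖}) := ⟨Φ a.1, a.1, a.2, rfl⟩

theorem lift_cov (h : SOPEN) {N : Type} [TopologicalSpace N] [T2Space N] [LocallyCompactSpace N]
    {Γ : Subgroup (E4 ≃ₗᵢ[ℝ] E4)} {R : ℝ} {Φ : E4 → N} (H : IsEnd Γ R Φ) :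
    letI := lift_act Γ R
    IsQuotientCoveringMap (lift_p R Φ) Γ := by
  letI := lift_act Γ R
  have := H.fin
  have hO : IsOpen {v : E4 | R < ‖v‖} := isOpen_lt continuous_const continuous_norm
  have : LocallyCompactSpace {v : E4 // R < ‖v‖} := hO.locallyCompactSpace
  have hc : ContinuousConstSMul Γ {v : E4 // R < ‖v‖} :=
    ⟨fun γ => (γ.1.continuous.comp continuous_subtype_val).subtype_mk _⟩
  have hop : IsOpenMap (lift_p R Φ) := by
    intro W hW
    have h1 := h N Γ R Φ H (Subtype.val '' W) (hO.isOpenMap_subtype_val W hW)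
      (by rintro _ ⟨a, -, rfl⟩; exact a.2)
    have h2 : lift_p R Φ '' W = Subtype.val ⁻¹' (Φ '' (Subtype.val '' W)) := by
      ext b
      constructor
      · rintro ⟨a, ha, rfl⟩
        exact ⟨a.1, ⟨a, ha, rfl⟩, rfl⟩
      · rintro ⟨_, ⟨a, ha, rfl⟩, hb⟩
        exact ⟨a, ha, Subtype.ext hb⟩
    rw [h2]
    exact h1.preimage continuous_subtype_val
  refine
    { toIsQuotientMap := hop.isQuotientMap (H.cont.domRestrict.subtype_mk _) ?_
      continuous_const_smul := hc.continuous_const_smul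
      apply_eq_iff_mem_orbit := ?_
      disjoint := fun c => ?_ }
  · rintro ⟨_, v, hv, rfl⟩
    exact ⟨⟨v, hv⟩, rfl⟩
  · intro a b
    constructor
    · intro e
      obtain ⟨γ, hγ, e'⟩ := (H.fib b.1 a.1 b.2 a.2).1 (congrArg Subtype.val e).symm
      exact ⟨⟨γ, hγ⟩, Subtype.ext e'.symm⟩
    · rintro ⟨γ, rfl⟩
      exact Subtype.ext ((H.fib b.1 (γ.1 b.1) b.2 (γ • b).2).2 ⟨γ.1, γ.2, rfl⟩).symm
  · obtain ⟨U, hU, hh⟩ := ProperlyDiscontinuousSMul.exists_nhds_image_smul_eq_self Γ c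
    refine ⟨U, hU, fun γ hγ => Subtype.ext ?_⟩
    have h1 : γ.1 c.1 = c.1 := congrArg Subtype.val (hh γ hγ)
    have h0 : 0 < ‖c.1‖ := H.pos.trans c.2
    refine H.free γ.1 γ.2 (‖c.1‖⁻¹ • c.1) ?_ ?_
    · rw [norm_smul, norm_inv, norm_norm, inv_mul_cancel₀ h0.ne']
    · rw [map_smul, h1]

theorem slift (h : SOPEN) : SLIFT := by
  classical
  intro N _ _ _ Γ R Φ H ρ g hρ hg hm
  letI := lift_act Γ R
  have hq := lift_cov h H
  obtain ⟨v₀, hv₀⟩ : ∃ v : E4, ρ < ‖v‖ :=
    ⟨EuclideanSpace.single 0 (ρ + 1), by simp [abs_of_pos (by linarith : 0 < ρ + 1)]⟩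
  let f : E4 → ↥(Φ '' {w | R < ‖w‖}) := fun v =>
    if hv : ρ < ‖v‖ then ⟨g v, hm v hv⟩ else ⟨g v₀, hm v₀ hv₀⟩
  have hf : ∀ v, ρ < ‖v‖ → (f v).1 = g v := fun v hv => congrArg Subtype.val (dif_pos hv)
  have hc : ContinuousOn f {v | ρ < ‖v‖} := by
    rw [IsInducing.subtypeVal.continuousOn_iff]
    exact hg.congr fun v hv => hf v hv
  obtain ⟨G, hG, hl⟩ := lift_out hq.isCoveringMap hq.surjective hρ hc
  exact ⟨fun v => (G v).1, continuous_subtype_val.comp_continuousOn hG, fun v hv =>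
    ⟨(G v).2, (congrArg Subtype.val (hl v hv)).trans (hf v hv)⟩⟩

end Pool.Agent.MP_67f0e4_gt.D2
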