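import Pool.Agent.MP_67f0e4_gt.D2.Spec

/-! The end map is open, and there is one end. -/

open scoped Topology
open Filter Set

namespace Pool.Agent.MP_67f0e4_gt.D2

theorem open_closed {N : Type} [TopologicalSpace N] [T2Space N] [LocallyCompactSpace N]
    {Γ : Subgroup (E4 ≃ₗᵢ[ℝ] E4)} {R : ℝ} {Φ : E4 → N} (h : IsEnd Γ R Φ) {C : Set E4}
    (hC : IsClosed C) (hR : C ⊆ {v | R < ‖v‖}) : IsClosed (Φ '' C) := by
  rw [← isOpen_compl_iff, isOpen_iff_mem_nhds]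
  intro y hy
  obtain ⟨K, hK, hyK⟩ := exists_compact_mem_nhds y
  obtain ⟨r, hr⟩ := h.proper K hK
  have hc : IsCompact (Φ '' (Metric.closedBall 0 r ∩ C)) :=
    ((isCompact_closedBall (0 : E4) r).inter_right hC).image_of_continuousOn
      (h.cont.mono fun v hv => hR hv.2)
  have h2 : (Φ '' (Metric.closedBall 0 r ∩ C))ᶜ ∈ 𝓝 y :=
    hc.isClosed.isOpen_compl.mem_nhds fun ⟨v, hv, e⟩ => hy ⟨v, hv.2, e⟩
  filter_upwards [hyK, h2] with z hz hz2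
  rintro ⟨v, hv, rfl⟩
  refine hz2 ⟨v, ⟨?_, hv⟩, rfl⟩
  rw [mem_closedBall_zero_iff]
  exact not_lt.1 fun hlt => hr v hlt hz

theorem sopen : SOPEN := by
  intro N _ _ _ Γ R Φ h W hW hWR
  rw [isOpen_iff_mem_nhds]
  rintro _ ⟨w, hw, rfl⟩
  obtain ⟨r, hr1, hr2⟩ := exists_between (show R < ‖w‖ from hWR hw)
  have hS : IsOpen (⋃ γ ∈ Γ, (γ : E4 → E4) ⁻¹' W) :=
    isOpen_biUnion fun γ _ => hW.preimage γ.continuous
  have hC : IsClosed ({v : E4 | r ≤ ‖v‖} \ ⋃ γ ∈ Γ, (γ : E4 → E4) ⁻¹' W) :=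
    (isClosed_le continuous_const continuous_norm).sdiff hS
  have h1 : IsOpen (Φ '' {v | r < ‖v‖}) := isClosed_compl_iff.1 (h.cocpt r hr1.le).isClosed
  have h2 := open_closed h hC fun v hv => hr1.trans_le hv.1
  have h3 : Φ w ∈ (Φ '' ({v : E4 | r ≤ ‖v‖} \ ⋃ γ ∈ Γ, (γ : E4 → E4) ⁻¹' W))ᶜ := by
    rintro ⟨c, hc, e⟩
    obtain ⟨γ, hγ, e'⟩ := (h.fib c w (hr1.trans_le hc.1) (hr1.trans hr2)).1 e
    refine hc.2 (mem_iUnion₂.2 ⟨γ, hγ, ?_⟩)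
    show γ c ∈ W
    rw [← e']
    exact hw
  filter_upwards [h1.mem_nhds ⟨w, hr2, rfl⟩, h2.isOpen_compl.mem_nhds h3] with z hz hz2
  obtain ⟨v, hv, rfl⟩ := hz
  have hv' : r < ‖v‖ := hv
  have hm : v ∈ ⋃ γ ∈ Γ, (γ : E4 → E4) ⁻¹' W := by
    by_contra hn
    exact hz2 ⟨v, ⟨hv'.le, hn⟩, rfl⟩
  obtain ⟨γ, hγ, hγv⟩ := mem_iUnion₂.1 hm
  exact ⟨γ v, hγv, ((h.fib v (γ v) (hr1.trans hv') (hWR hγv)).2 ⟨γ, hγ, rfl⟩).symm⟩

theorem open_conn {r : ℝ} (hr : 0 < r) : IsConnected {v : E4 | r < ‖v‖} := by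
  have hk : 1 < Module.rank ℝ E4 := by
    rw [← Module.finrank_eq_rank, finrank_euclideanSpace_fin]
    exact Nat.one_lt_cast.2 (by norm_num)
  have h1 : IsConnected (Ioi r ×ˢ Metric.sphere (0 : E4) 1) :=
    isConnected_Ioi.prod (isConnected_sphere hk 0 zero_le_one)
  have e : {v : E4 | r < ‖v‖} =
      (fun a : ℝ × E4 => a.1 • a.2) '' (Ioi r ×ˢ Metric.sphere (0 : E4) 1) := by
    ext v
    constructor
    · intro hv
      have hv' : r < ‖v‖ := hv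
      have h0 : ‖v‖ ≠ 0 := (hr.trans hv').ne'
      refine ⟨(‖v‖, ‖v‖⁻¹ • v), ⟨hv', ?_⟩, ?_⟩
      · show ‖v‖⁻¹ • v ∈ Metric.sphere (0 : E4) 1
        rw [mem_sphere_zero_iff_norm, norm_smul, norm_inv, norm_norm, inv_mul_cancel₀ h0]
      · show ‖v‖ • ‖v‖⁻¹ • v = v
        rw [smul_smul, mul_inv_cancel₀ h0, one_smul]
    · rintro ⟨⟨t, u⟩, ⟨ht, hu⟩, rfl⟩
      have ht' : r < t := ht
      have hu' : ‖u‖ = 1 := mem_sphere_zero_iff_norm.1 hu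
      show r < ‖t • u‖
      rw [norm_smul, hu', mul_one, Real.norm_of_nonneg (hr.trans ht').le]
      exact ht'
  rw [e]
  exact h1.image _ (continuous_fst.smul continuous_snd).continuousOn

theorem sone : SONE := by
  intro N _ Γ R Φ h K hK
  obtain ⟨r, hr⟩ := h.proper K hK
  refine ⟨(Φ '' {v | max R r < ‖v‖})ᶜ, h.cocpt _ (le_max_left _ _), ?_, ?_⟩
  · rintro y hy ⟨v, hv, rfl⟩
    exact hr v ((le_max_right _ _).trans_lt hv) hy
  · rw [compl_compl]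
    exact (open_conn (h.pos.trans_le (le_max_left _ _))).image _
      (h.cont.mono fun v hv => (le_max_left R r).trans_lt hv)

end Pool.Agent.MP_67f0e4_gt.D2
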