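import Pool.Agent.MP_67f0e4_gt.D2.Spec

/-! The chart at infinity presents the end of the surface. -/

open scoped Topology
open Filter Set

namespace Pool.Agent.MP_67f0e4_gt.D2

theorem phi_grow {n : ℕ} {ι : E4 ≃L[ℝ] C2} {κ : ℝ} (hn : 1 ≤ n) (hι : Iso ι) (hL : LamF n)
    (hκ : 0 < κ) (B : ℝ) : ∃ r : ℝ, 0 < r ∧ ∀ v : E4, r < ‖v‖ → B < NN n (κ • ι v) := by
  have h1 : (1 : ℝ) ≤ max 1 B := le_max_left _ _
  refine ⟨2 * max 1 B / κ, by positivity, fun v hv => ?_⟩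
  have h2 : 2 * max 1 B < ‖κ • v‖ := by
    rw [norm_smul, Real.norm_of_nonneg hκ.le, mul_comm κ]
    exact (div_lt_iff₀ hκ).1 hv
  have h3 := hL.lower (ι (κ • v))
  rw [← hι (κ • v), map_smul] at h3
  have h4 : max 1 B < ‖κ • v‖ ^ 2 / 2 := by nlinarith
  exact ((le_max_right 1 B).trans_lt h4).trans_le
    ((le_self_pow₀ (h1.trans h4.le) (by omega)).trans h3)

theorem phi_contNN (n : ℕ) : Continuous (NN n) :=
  ((Complex.continuous_normSq.comp continuous_fst).pow n).add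
    ((Complex.continuous_normSq.comp continuous_snd).pow n)

theorem phi_cont {n : ℕ} (ι : E4 ≃L[ℝ] C2) (κ : ℝ) (hL : LamF n) :
    ContinuousOn (fun v : E4 => Ph n 1 (κ • ι v)) {v | 40 ≤ NN n (κ • ι v)} := by
  have h : Continuous fun v : E4 => ((1 : ℝ), κ • ι v) :=
    continuous_const.prodMk (ι.continuous.const_smul κ)
  refine hL.smooth.continuousOn.comp h.continuousOn fun v hv => ?_
  have hv' : 40 ≤ NN n (κ • ι v) := hv
  show 8 * |(1 : ℝ)| ^ n < NN n (κ • ι v)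
  rw [abs_one, one_pow]
  linarith

theorem phi_orb {n : ℕ} {ι : E4 ≃L[ℝ] C2} {Γ : Subgroup (E4 ≃ₗᵢ[ℝ] E4)} {κ : ℝ}
    (hΓ : GamF n ι Γ) (hL : LamF n) (hI : InjF n) (hκ : 0 < κ) {v w : E4}
    (hv : 40 ≤ NN n (κ • ι v)) (hw : 40 ≤ NN n (κ • ι w)) :
    Ph n 1 (κ • ι v) = Ph n 1 (κ • ι w) ↔ ∃ γ ∈ Γ, w = γ v := by
  have e : ∀ ζ : ℂ, ((ζ * (κ • ι v).1, ζ⁻¹ * (κ • ι v).2) : C2) =
      κ • ((ζ * (ι v).1, ζ⁻¹ * (ι v).2) : C2) := by
    intro ζ
    rw [Prod.smul_fst, Prod.smul_snd, mul_smul_comm, mul_smul_comm, Prod.smul_mk]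
  rw [hΓ.orb]
  constructor
  · intro h
    obtain ⟨ζ, hζ, e'⟩ := hI _ _ hv hw h
    rw [e] at e'
    exact ⟨ζ, hζ, smul_right_injective C2 hκ.ne' e'⟩
  · rintro ⟨ζ, hζ, e'⟩
    rw [e', ← e, hL.rot ζ hζ]

theorem phi_closed (n : ℕ) : IsClosed (H.surf n) :=
  isClosed_eq (continuous_fst.mul continuous_snd.fst)
    ((continuous_snd.snd.pow n).sub continuous_const)

theorem phi_contM : Continuous fun p : C3 => Complex.normSq p.1 + Complex.normSq p.2.1 :=
  (Complex.continuous_normSq.comp continuous_fst).add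
    (Complex.continuous_normSq.comp continuous_snd.fst)

theorem phi_core {n : ℕ} (hn : 1 ≤ n) :
    IsCompact (H.surf n ∩ {p : C3 | Complex.normSq p.1 + Complex.normSq p.2.1 ≤ 80}) := by
  refine (isCompact_closedBall (0 : C3) 82).of_isClosed_subset
    ((phi_closed n).inter (isClosed_le phi_contM continuous_const)) ?_
  rintro ⟨x, y, z⟩ ⟨h1, h2⟩
  have h1' : x * y = z ^ n - 1 := h1
  have h2' : Complex.normSq x + Complex.normSq y ≤ 80 := h2
  rw [Complex.normSq_eq_norm_sq, Complex.normSq_eq_norm_sq] at h2'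
  have hx : ‖x‖ ≤ 9 := by nlinarith [norm_nonneg x, norm_nonneg y, sq_nonneg ‖y‖]
  have hy : ‖y‖ ≤ 9 := by nlinarith [norm_nonneg x, norm_nonneg y, sq_nonneg ‖x‖]
  have hz : ‖z‖ ^ n ≤ 82 := by
    have e : z ^ n = x * y + 1 := by rw [h1']; ring
    rw [← norm_pow, e]
    refine (norm_add_le _ _).trans ?_
    rw [norm_mul, norm_one]
    nlinarith [norm_nonneg x, norm_nonneg y]
  have hz' : ‖z‖ ≤ 82 := by
    rcases le_total ‖z‖ 1 with h | h
    · linarith
    · exact (le_self_pow₀ h (by omega)).trans hz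
  rw [mem_closedBall_zero_iff, Prod.norm_mk, Prod.norm_mk]
  exact max_le (by linarith) (max_le (by linarith) hz')

theorem sphi : SPHI := by
  intro n ι Γ κ hn hι hΓ hL hI hS hκ
  obtain ⟨R₀, hR₀, hb⟩ := phi_grow hn hι hL hκ 160
  have hb' : ∀ v : E4, R₀ < ‖v‖ → 40 ≤ NN n (κ • ι v) := fun v hv => by linarith [hb v hv]
  refine ⟨R₀, hR₀, hb', fun R hR Φ hΦ => ⟨hR₀.trans_le hR, ?_, hΓ.free, ?_, ?_, ?_, ?_⟩⟩
  · exact Nat.finite_of_card_ne_zero (by rw [hΓ.card]; omega)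
  · rw [Topology.IsInducing.subtypeVal.continuousOn_iff]
    exact ((phi_cont ι κ hL).mono fun v hv => hb' v (hR.trans_lt hv)).congr fun v hv => hΦ v hv
  · intro v w hv hw
    rw [← phi_orb hΓ hL hI hκ (hb' v (hR.trans_lt hv)) (hb' w (hR.trans_lt hw)), ← hΦ v hv,
      ← hΦ w hw]
    exact Subtype.ext_iff
  · intro r hr
    have hc : IsClosed {v : E4 | 40 ≤ NN n (κ • ι v)} :=
      isClosed_le continuous_const ((phi_contNN n).comp (ι.continuous.const_smul κ))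
    have h2 : IsCompact ((fun v : E4 => Ph n 1 (κ • ι v)) ''
        (Metric.closedBall 0 r ∩ {v : E4 | 40 ≤ NN n (κ • ι v)})) :=
      ((isCompact_closedBall (0 : E4) r).inter_right hc).image_of_continuousOn
        ((phi_cont ι κ hL).mono inter_subset_right)
    have h3 := (phi_closed n).isClosedEmbedding_subtypeVal.isCompact_preimage
      ((phi_core hn).union h2)
    have e : (Φ '' {v | r < ‖v‖})ᶜ = Subtype.val ⁻¹'
        ((H.surf n ∩ {p : C3 | Complex.normSq p.1 + Complex.normSq p.2.1 ≤ 80}) ∪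
          (fun v : E4 => Ph n 1 (κ • ι v)) ''
            (Metric.closedBall 0 r ∩ {v : E4 | 40 ≤ NN n (κ • ι v)})) := by
      ext p
      constructor
      · intro hp
        rcases le_total (Complex.normSq p.1.1 + Complex.normSq p.1.2.1) 80 with h | h
        · exact Or.inl ⟨p.2, h⟩
        obtain ⟨q, hq, e⟩ := hS p.1 p.2 h
        have eq : κ • ι (κ⁻¹ • ι.symm q) = q := by
          rw [map_smul, ContinuousLinearEquiv.apply_symm_apply, smul_smul,
            mul_inv_cancel₀ hκ.ne', one_smul]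
        refine Or.inr ⟨κ⁻¹ • ι.symm q, ⟨?_, ?_⟩, ?_⟩
        · rw [mem_closedBall_zero_iff]
          refine not_lt.1 fun hlt => hp ⟨_, hlt, Subtype.ext ?_⟩
          rw [hΦ _ (hr.trans_lt hlt), eq, e]
        · show 40 ≤ NN n (κ • ι (κ⁻¹ • ι.symm q))
          rw [eq]
          exact hq
        · show Ph n 1 (κ • ι (κ⁻¹ • ι.symm q)) = p.1
          rw [eq, e]
      · rintro hp ⟨w, hw, rfl⟩
        have hw1 : R < ‖w‖ := hr.trans_lt hw
        have hw2 : R₀ < ‖w‖ := hR.trans_lt hw1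
        rcases hp with ⟨-, h⟩ | ⟨v, ⟨hv1, hv2⟩, e⟩
        · have h' : Complex.normSq (Φ w).1.1 + Complex.normSq (Φ w).1.2.1 ≤ 80 := h
          rw [hΦ w hw1] at h'
          linarith [hL.size _ (hb' w hw2), hb w hw2]
        · rw [hΦ w hw1] at e
          obtain ⟨γ, -, rfl⟩ := (phi_orb hΓ hL hI hκ hv2 (hb' w hw2)).1 e
          have hw' : r < ‖γ v‖ := hw
          rw [γ.norm_map] at hw'
          exact absurd (mem_closedBall_zero_iff.1 hv1) (not_le.2 hw')
    rw [e]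
    exact h3
  · intro K hK
    obtain ⟨B, hB⟩ := hK.bddAbove_image (phi_contM.comp continuous_subtype_val).continuousOn
    obtain ⟨r, -, hr⟩ := phi_grow hn hι hL hκ (2 * B)
    refine ⟨max R r, fun v hv hK' => ?_⟩
    have hv1 : R < ‖v‖ := (le_max_left _ _).trans_lt hv
    have h : Complex.normSq (Φ v).1.1 + Complex.normSq (Φ v).1.2.1 ≤ B := hB ⟨_, hK', rfl⟩
    rw [hΦ v hv1] at h
    linarith [hL.size _ (hb' v (hR.trans_lt hv1)), hr v ((le_max_right _ _).trans_lt hv)]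

end Pool.Agent.MP_67f0e4_gt.D2
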