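import Pool.Agent.MP_67f0e4_gt.D2.Spec

/-! Row SUR: the chart at infinity covers the end of the surface. -/

open scoped ContDiff Topology ComplexConjugate
open Filter Set

namespace Pool.Agent.MP_67f0e4_gt.D2

noncomputable section

/-- The map whose fixed point is the shear parameter. -/
def sur_T (P Z : ℂ) (M : ℝ) (l : ℂ) : ℂ :=
  (-1 + l ^ 2 * conj P + Z * ((2 * ‖l‖ ^ 2 - (‖l‖ ^ 2) ^ 2 : ℝ) : ℂ)) / (M : ℂ)

lemma sur_maps {P Z : ℂ} {M : ℝ} (hM : 80 ≤ M) (hP : ‖P‖ ≤ M / 2) (hZ : ‖Z‖ ≤ M / 2 + 1)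
    {l : ℂ} (hl : ‖l‖ ≤ 1 / 20) : ‖sur_T P Z M l‖ ≤ 1 / 20 := by
  have hM0 : 0 < M := by linarith
  have h0 := norm_nonneg l
  have ha : ‖l‖ ^ 2 ≤ 1 / 400 := by nlinarith
  have ha0 : 0 ≤ ‖l‖ ^ 2 := sq_nonneg _
  have h1 : ‖l ^ 2 * conj P‖ ≤ 1 / 400 * (M / 2) := by
    rw [norm_mul, norm_pow, Complex.norm_conj]
    exact mul_le_mul ha hP (norm_nonneg _) (by norm_num)
  have h2 : ‖Z * ((2 * ‖l‖ ^ 2 - (‖l‖ ^ 2) ^ 2 : ℝ) : ℂ)‖ ≤ (M / 2 + 1) * (1 / 200) := by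
    rw [norm_mul, Complex.norm_real, Real.norm_eq_abs]
    refine mul_le_mul hZ (abs_le.2 ⟨?_, ?_⟩) (abs_nonneg _) (by linarith) <;> nlinarith
  rw [sur_T, norm_div, Complex.norm_real, Real.norm_eq_abs, abs_of_pos hM0, div_le_iff₀ hM0]
  have h3 := norm_add_le (-1 + l ^ 2 * conj P) (Z * ((2 * ‖l‖ ^ 2 - (‖l‖ ^ 2) ^ 2 : ℝ) : ℂ))
  have h4 := norm_add_le (-1 : ℂ) (l ^ 2 * conj P)
  rw [norm_neg, norm_one] at h4
  linarith

lemma sur_lip {P Z : ℂ} {M : ℝ} (hM : 80 ≤ M) (hP : ‖P‖ ≤ M / 2) (hZ : ‖Z‖ ≤ M / 2 + 1)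
    {l k : ℂ} (hl : ‖l‖ ≤ 1 / 20) (hk : ‖k‖ ≤ 1 / 20) :
    ‖sur_T P Z M l - sur_T P Z M k‖ ≤ 1 / 2 * ‖l - k‖ := by
  have hM0 : 0 < M := by linarith
  have h0 := norm_nonneg l
  have h0' := norm_nonneg k
  have hd := norm_nonneg (l - k)
  have hab : |‖l‖ - ‖k‖| ≤ ‖l - k‖ := abs_norm_sub_norm_le l k
  have hs : ‖l + k‖ ≤ 1 / 10 := (norm_add_le l k).trans (by linarith)
  have h1 : ‖(l - k) * (l + k) * conj P‖ ≤ ‖l - k‖ * (1 / 10) * (M / 2) := by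
    rw [norm_mul, norm_mul, Complex.norm_conj]
    exact mul_le_mul (mul_le_mul_of_nonneg_left hs hd) hP (norm_nonneg _) (by positivity)
  have h2 : ‖Z * (((‖l‖ - ‖k‖) * ((‖l‖ + ‖k‖) * (2 - ‖l‖ ^ 2 - ‖k‖ ^ 2)) : ℝ) : ℂ)‖ ≤
      (M / 2 + 1) * (‖l - k‖ * (1 / 5)) := by
    rw [norm_mul, Complex.norm_real, Real.norm_eq_abs, abs_mul]
    refine mul_le_mul hZ (mul_le_mul hab (abs_le.2 ⟨?_, ?_⟩) (abs_nonneg _) hd)
      (by positivity) (by linarith)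
    · have : 0 ≤ (‖l‖ + ‖k‖) * (2 - ‖l‖ ^ 2 - ‖k‖ ^ 2) :=
        mul_nonneg (by linarith) (by nlinarith)
      linarith
    · have : (‖l‖ + ‖k‖) * (2 - ‖l‖ ^ 2 - ‖k‖ ^ 2) ≤ (1 / 10) * 2 :=
        mul_le_mul (by linarith) (by nlinarith) (by nlinarith) (by norm_num)
      linarith
  have h3 : sur_T P Z M l - sur_T P Z M k = ((l - k) * (l + k) * conj P +
      Z * (((‖l‖ - ‖k‖) * ((‖l‖ + ‖k‖) * (2 - ‖l‖ ^ 2 - ‖k‖ ^ 2)) : ℝ) : ℂ)) / (M : ℂ) := by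
    rw [sur_T, sur_T, ← sub_div]
    push_cast
    ring
  rw [h3, norm_div, Complex.norm_real, Real.norm_eq_abs, abs_of_pos hM0, div_le_iff₀ hM0]
  refine (norm_add_le _ _).trans ?_
  nlinarith

lemma sur_fix {P Z : ℂ} {M : ℝ} (hM : 80 ≤ M) (hP : ‖P‖ ≤ M / 2) (hZ : ‖Z‖ ≤ M / 2 + 1) :
    ∃ l : ℂ, ‖l‖ ≤ 1 / 20 ∧ sur_T P Z M l = l := by
  have hm : MapsTo (sur_T P Z M) (Metric.closedBall 0 (1 / 20)) (Metric.closedBall 0 (1 / 20)) :=
    fun l hl => mem_closedBall_zero_iff.2 (sur_maps hM hP hZ (mem_closedBall_zero_iff.1 hl))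
  have hc : ContractingWith (1 / 2) (hm.restrict _ _ _) := by
    refine ⟨by norm_num, LipschitzWith.of_dist_le_mul fun l k => ?_⟩
    rw [Subtype.dist_eq, Subtype.dist_eq, dist_eq_norm, dist_eq_norm]
    have := sur_lip hM hP hZ (mem_closedBall_zero_iff.1 l.2) (mem_closedBall_zero_iff.1 k.2)
    simpa using this
  obtain ⟨l, hl, hf, -⟩ := ContractingWith.exists_fixedPoint' Metric.isClosed_closedBall.isComplete
    hm hc (x := 0) (by simp) (edist_ne_top _ _)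
  exact ⟨l, mem_closedBall_zero_iff.1 hl, hf⟩

lemma sur_shear {x y Z : ℂ} (h : x * y = Z - 1) (hM : 80 ≤ Complex.normSq x + Complex.normSq y) :
    ∃ l X Y : ℂ, ‖l‖ ≤ 1 / 20 ∧ X * Y = Z ∧ x = X + l * conj Y ∧ y = Y + l * conj X := by
  have hP : ‖x * y‖ ≤ (Complex.normSq x + Complex.normSq y) / 2 := by
    rw [norm_mul, Complex.normSq_eq_norm_sq, Complex.normSq_eq_norm_sq]
    nlinarith [sq_nonneg (‖x‖ - ‖y‖)]
  have hZ : ‖Z‖ ≤ (Complex.normSq x + Complex.normSq y) / 2 + 1 := by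
    have := norm_add_le (x * y) 1
    rw [norm_one, h, sub_add_cancel, ← h] at this
    linarith
  obtain ⟨l, hl, hf⟩ := sur_fix hM hP hZ
  have hM0 : ((Complex.normSq x + Complex.normSq y : ℝ) : ℂ) ≠ 0 :=
    Complex.ofReal_ne_zero.2 (by linarith)
  rw [sur_T, div_eq_iff hM0, ← Complex.normSq_eq_norm_sq] at hf
  push_cast at hf
  rw [← Complex.mul_conj, ← Complex.mul_conj, ← Complex.mul_conj, map_mul] at hf
  have hd : (1 : ℂ) - l * conj l ≠ 0 := by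
    rw [Complex.mul_conj, Complex.normSq_eq_norm_sq, ← Complex.ofReal_one, ← Complex.ofReal_sub]
    exact Complex.ofReal_ne_zero.2 (by nlinarith [norm_nonneg l])
  have hc : conj ((1 : ℂ) - l * conj l) = 1 - l * conj l := by
    rw [map_sub, map_one, map_mul, Complex.conj_conj, mul_comm]
  refine ⟨l, (x - l * conj y) / (1 - l * conj l), (y - l * conj x) / (1 - l * conj l), hl,
    ?_, ?_, ?_⟩
  · rw [div_mul_div_comm, div_eq_iff (mul_ne_zero hd hd)]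
    linear_combination h + hf
  · rw [map_div₀, hc, map_sub, map_mul, Complex.conj_conj]
    field_simp
    ring
  · rw [map_div₀, hc, map_sub, map_mul, Complex.conj_conj]
    field_simp
    ring

lemma sur_size {l X Y : ℂ} (hl : ‖l‖ ≤ 1 / 20)
    (hM : 80 ≤ Complex.normSq (X + l * conj Y) + Complex.normSq (Y + l * conj X)) :
    40 ≤ Complex.normSq X + Complex.normSq Y := by
  have key : ∀ A B : ℂ, ‖A + l * conj B‖ ^ 2 ≤ (‖A‖ + 1 / 20 * ‖B‖) ^ 2 := fun A B => by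
    refine pow_le_pow_left₀ (norm_nonneg _) ((norm_add_le _ _).trans ?_) 2
    rw [norm_mul, Complex.norm_conj]
    exact add_le_add le_rfl (mul_le_mul_of_nonneg_right hl (norm_nonneg _))
  simp only [Complex.normSq_eq_norm_sq] at hM ⊢
  nlinarith [key X Y, key Y X, sq_nonneg (‖X‖ - ‖Y‖), sq_nonneg ‖X‖, sq_nonneg ‖Y‖]

lemma sur_root {n : ℕ} (hn : 1 ≤ n) {X Y z : ℂ} (h : X * Y = z ^ n) :
    ∃ q : C2, q.1 ^ n = X ∧ q.2 ^ n = Y ∧ q.1 * q.2 = z := by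
  by_cases hX : X = 0
  · obtain ⟨b, hb⟩ := IsAlgClosed.exists_pow_nat_eq Y hn
    rw [hX, zero_mul] at h
    refine ⟨(0, b), ?_, hb, ?_⟩
    · rw [hX]; exact zero_pow (by omega)
    · rw [pow_eq_zero_iff (by omega) |>.1 h.symm]; exact zero_mul _
  · obtain ⟨a, ha⟩ := IsAlgClosed.exists_pow_nat_eq X hn
    have ha0 : a ≠ 0 := by
      rintro rfl
      exact hX (ha.symm.trans (zero_pow (by omega)))
    refine ⟨(a, z / a), ha, ?_, mul_div_cancel₀ _ ha0⟩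
    change (z / a) ^ n = Y
    rw [div_pow, ha, ← h, mul_div_cancel_left₀ _ hX]

lemma sur_uniq {c l k : ℂ} {N : ℝ} (hN : 0 < N) (hc : ‖c‖ ≤ N / 2) (hl : ‖l‖ ≤ 1 / 20)
    (hk : ‖k‖ ≤ 1 / 20) (h : c * l ^ 2 + N * l = c * k ^ 2 + N * k) : l = k := by
  have h1 : (l - k) * (c * (l + k) + N) = 0 := by linear_combination h
  rcases mul_eq_zero.1 h1 with h2 | h2
  · exact sub_eq_zero.1 h2
  · exfalso
    have h3 : ‖c * (l + k)‖ = N := by
      rw [eq_neg_of_add_eq_zero_left h2, norm_neg, Complex.norm_real, Real.norm_eq_abs,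
        abs_of_pos hN]
    have h4 : ‖c * (l + k)‖ ≤ N / 2 * (1 / 10) := by
      rw [norm_mul]
      exact mul_le_mul hc ((norm_add_le l k).trans (by linarith)) (norm_nonneg _) (by linarith)
    linarith

theorem ssur : SSUR := by
  rintro n hn hL ⟨x, y, z⟩ h hM
  obtain ⟨l, X, Y, hl, hXY, hx, hy⟩ := sur_shear h hM
  dsimp only at h hM hXY hx hy
  obtain ⟨q, h1, h2, h3⟩ := sur_root hn hXY
  have hN : NN n q = Complex.normSq X + Complex.normSq Y := by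
    rw [NN, ← map_pow, ← map_pow, h1, h2]
  have h40 : 40 ≤ NN n q := by
    rw [hN]
    rw [hx, hy] at hM
    exact sur_size hl hM
  have hO : ((1 : ℝ), q) ∈ Om n := by
    change 8 * |(1 : ℝ)| ^ n < NN n q
    rw [abs_one, one_pow]
    linarith
  have hs : ‖lam n 1 q‖ ≤ 1 / 20 := by
    refine (hL.small 1 q hO).trans ?_
    rw [abs_one, one_pow, div_le_iff₀ (by linarith)]
    linarith
  have hq := hL.quad 1 q hO
  have hc : ‖conj (q.1 * q.2) ^ n‖ ≤ NN n q / 2 := by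
    rw [norm_pow, Complex.norm_conj]
    exact hL.zle q
  have hl2 : conj (q.1 * q.2) ^ n * l ^ 2 + (NN n q : ℂ) * l + 1 = 0 := by
    rw [h3, ← map_pow, ← hXY, map_mul, hN]
    push_cast
    rw [← Complex.mul_conj, ← Complex.mul_conj]
    rw [hx, hy, ← hXY] at h
    linear_combination h
  have he : lam n 1 q = l := by
    refine sur_uniq (by linarith) hc hs hl ?_
    rw [Complex.ofReal_one, one_pow] at hq
    linear_combination hq - hl2
  refine ⟨q, h40, ?_⟩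
  rw [Ph, he, ← map_pow, ← map_pow, h1, h2, h3, ← hx, ← hy]

end

end Pool.Agent.MP_67f0e4_gt.D2
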