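import Pool.Agent.MP_67f0e4_gt.D2.Spec

/-! Row TS: the end of the tangent bundle of the two sphere. -/

open Set

namespace Pool.Agent.MP_67f0e4_gt.D2

noncomputable section

abbrev ts_E3 := EuclideanSpace ℝ (Fin 3)

abbrev ts_H := QuaternionAlgebra ℝ (-1) 0 (-1)

lemma ts_quat (u w : ts_H) (hu : u * u = -1) (hw : w * w = -1) (h : w * u = -(u * w)) :
    ∃ L : ts_H, L ≠ 0 ∧ u * L = L * ⟨0, 1, 0, 0⟩ ∧ w * L = L * ⟨0, 0, 1, 0⟩ := by
  let i : ts_H := ⟨0, 1, 0, 0⟩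
  let j : ts_H := ⟨0, 0, 1, 0⟩
  let k : ts_H := ⟨0, 0, 0, 1⟩
  have hii : i * i = -1 := by ext <;> simp [i]
  have hjj : j * j = -1 := by ext <;> simp [j]
  have hij : i * j = k := by ext <;> simp [i, j, k]
  have hji : j * i = -k := by ext <;> simp [i, j, k]
  have hki : k * i = j := by ext <;> simp [i, j, k]
  have hkj : k * j = -i := by ext <;> simp [i, j, k]
  let L : ts_H → ts_H := fun p => p - u * p * i - w * p * j - u * w * p * k
  have h0 : ∃ p, L p ≠ 0 := by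
    by_contra h0
    have h0' : ∀ p, L p = 0 := fun p => by_contra fun hp => h0 ⟨p, hp⟩
    have h1 := congrArg (fun x : ts_H => x.re) (h0' 1)
    have h2 := congrArg (fun x : ts_H => x.imI) (h0' i)
    have h3 := congrArg (fun x : ts_H => x.imJ) (h0' j)
    have h4 := congrArg (fun x : ts_H => x.imK) (h0' k)
    simp [L, i, j, k] at h1 h2 h3 h4
    linarith
  obtain ⟨p, hp⟩ := h0
  refine ⟨L p, hp, ?_, ?_⟩
  · have h1 : u * L p = u * p - (u * u) * p * i - u * w * p * j - (u * u) * w * p * k := by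
      simp only [L]; noncomm_ring
    have h2 : L p * i = p * i - u * p * (i * i) - w * p * (j * i) - u * w * p * (k * i) := by
      simp only [L]; noncomm_ring
    change u * L p = L p * i
    rw [h1, h2, hu, hii, hji, hki]
    noncomm_ring
  · have h1 : w * L p = w * p - (w * u) * p * i - (w * w) * p * j - (w * u) * w * p * k := by
      simp only [L]; noncomm_ring
    have h2 : L p * j = p * j - u * p * (i * j) - w * p * (j * j) - u * w * p * (k * j) := by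
      simp only [L]; noncomm_ring
    have h3 : -(u * w) * w = u := by rw [neg_mul, mul_assoc, hw]; simp
    change w * L p = L p * j
    rw [h1, h2, h, h3, hw, hij, hjj, hkj]
    noncomm_ring

/-- The rotated first axis. -/
def ts_A (v : E4) : ts_E3 :=
  !₂[v 0 ^ 2 + v 1 ^ 2 - v 2 ^ 2 - v 3 ^ 2, 2 * (v 1 * v 2 + v 0 * v 3),
    2 * (v 1 * v 3 - v 0 * v 2)]

/-- The rotated second axis. -/
def ts_B (v : E4) : ts_E3 :=
  !₂[2 * (v 1 * v 2 - v 0 * v 3), v 0 ^ 2 - v 1 ^ 2 + v 2 ^ 2 - v 3 ^ 2,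
    2 * (v 2 * v 3 + v 0 * v 1)]

lemma ts_n4 (v : E4) : ‖v‖ ^ 2 = v 0 ^ 2 + v 1 ^ 2 + v 2 ^ 2 + v 3 ^ 2 := by
  rw [EuclideanSpace.real_norm_sq_eq, Fin.sum_univ_four]

lemma ts_n3 (v : ts_E3) : ‖v‖ ^ 2 = v 0 ^ 2 + v 1 ^ 2 + v 2 ^ 2 := by
  rw [EuclideanSpace.real_norm_sq_eq, Fin.sum_univ_three]

lemma ts_i3 (x y : ts_E3) : inner ℝ x y = x 0 * y 0 + x 1 * y 1 + x 2 * y 2 := by
  simp [PiLp.inner_apply, Fin.sum_univ_three, mul_comm]

lemma ts_nA (v : E4) : ‖ts_A v‖ = ‖v‖ ^ 2 := by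
  refine (pow_left_inj₀ (norm_nonneg _) (sq_nonneg _) two_ne_zero).1 ?_
  rw [ts_n3, ts_n4]
  simp [ts_A]
  ring

lemma ts_nB (v : E4) : ‖ts_B v‖ = ‖v‖ ^ 2 := by
  refine (pow_left_inj₀ (norm_nonneg _) (sq_nonneg _) two_ne_zero).1 ?_
  rw [ts_n3, ts_n4]
  simp [ts_B]
  ring

lemma ts_AB (v : E4) : inner ℝ (ts_A v) (ts_B v) = 0 := by
  rw [ts_i3]
  simp [ts_A, ts_B]
  ring

lemma ts_cA : Continuous ts_A := by
  unfold ts_A
  fun_prop

lemma ts_cB : Continuous ts_B := by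
  unfold ts_B
  fun_prop

lemma ts_rank (a b c d a' b' c' d' N : ℝ) (hN : N ≠ 0) (h : N = a ^ 2 + b ^ 2 + c ^ 2 + d ^ 2)
    (h' : N = a' ^ 2 + b' ^ 2 + c' ^ 2 + d' ^ 2)
    (A0 : a ^ 2 + b ^ 2 - c ^ 2 - d ^ 2 = a' ^ 2 + b' ^ 2 - c' ^ 2 - d' ^ 2)
    (A1 : 2 * (b * c + a * d) = 2 * (b' * c' + a' * d'))
    (A2 : 2 * (b * d - a * c) = 2 * (b' * d' - a' * c'))
    (B0 : 2 * (b * c - a * d) = 2 * (b' * c' - a' * d'))
    (B1 : a ^ 2 - b ^ 2 + c ^ 2 - d ^ 2 = a' ^ 2 - b' ^ 2 + c' ^ 2 - d' ^ 2)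
    (B2 : 2 * (c * d + a * b) = 2 * (c' * d' + a' * b')) :
    (a' = a ∧ b' = b ∧ c' = c ∧ d' = d) ∨ (a' = -a ∧ b' = -b ∧ c' = -c ∧ d' = -d) := by
  have k0 : ∀ a b c d : ℝ, (a ^ 2 + b ^ 2 + c ^ 2 + d ^ 2) * (2 * (b * d + a * c)) =
      2 * (b * c + a * d) * (2 * (c * d + a * b)) -
        2 * (b * d - a * c) * (a ^ 2 - b ^ 2 + c ^ 2 - d ^ 2) := fun a b c d => by ring
  have k1 : ∀ a b c d : ℝ, (a ^ 2 + b ^ 2 + c ^ 2 + d ^ 2) * (2 * (c * d - a * b)) =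
      2 * (b * d - a * c) * (2 * (b * c - a * d)) -
        (a ^ 2 + b ^ 2 - c ^ 2 - d ^ 2) * (2 * (c * d + a * b)) := fun a b c d => by ring
  have k2 : ∀ a b c d : ℝ, (a ^ 2 + b ^ 2 + c ^ 2 + d ^ 2) * (a ^ 2 - b ^ 2 - c ^ 2 + d ^ 2) =
      (a ^ 2 + b ^ 2 - c ^ 2 - d ^ 2) * (a ^ 2 - b ^ 2 + c ^ 2 - d ^ 2) -
        2 * (b * c + a * d) * (2 * (b * c - a * d)) := fun a b c d => by ring
  have C0 : 2 * (b * d + a * c) = 2 * (b' * d' + a' * c') := mul_left_cancel₀ hN (by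
    have e := k0 a b c d
    rw [A1, B2, A2, B1, ← k0 a' b' c' d', ← h, ← h'] at e
    exact e)
  have C1 : 2 * (c * d - a * b) = 2 * (c' * d' - a' * b') := mul_left_cancel₀ hN (by
    have e := k1 a b c d
    rw [A2, B0, A0, B2, ← k1 a' b' c' d', ← h, ← h'] at e
    exact e)
  have C2 : a ^ 2 - b ^ 2 - c ^ 2 + d ^ 2 = a' ^ 2 - b' ^ 2 - c' ^ 2 + d' ^ 2 :=
    mul_left_cancel₀ hN (by
      have e := k2 a b c d
      rw [A0, B1, A1, B0, ← k2 a' b' c' d', ← h, ← h'] at e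
      exact e)
  have aa : a' ^ 2 = a ^ 2 := by linarith
  have bb : b' ^ 2 = b ^ 2 := by linarith
  have cc : c' ^ 2 = c ^ 2 := by linarith
  have dd : d' ^ 2 = d ^ 2 := by linarith
  have ab : a' * b' = a * b := by linarith
  have ac : a' * c' = a * c := by linarith
  have ad : a' * d' = a * d := by linarith
  have bc : b' * c' = b * c := by linarith
  have bd : b' * d' = b * d := by linarith
  have cd : c' * d' = c * d := by linarith
  obtain ⟨s, hs⟩ : ∃ s, s = a * a' + b * b' + c * c' + d * d' := ⟨_, rfl⟩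
  have sa : s * a' = N * a := by
    rw [hs, h]; linear_combination a * aa + b * ab + c * ac + d * ad
  have sb : s * b' = N * b := by
    rw [hs, h]; linear_combination a * ab + b * bb + c * bc + d * bd
  have sc : s * c' = N * c := by
    rw [hs, h]; linear_combination a * ac + b * bc + c * cc + d * cd
  have sd : s * d' = N * d := by
    rw [hs, h]; linear_combination a * ad + b * bd + c * cd + d * dd
  have ss : s ^ 2 = N ^ 2 := by
    linear_combination s * hs + a * sa + b * sb + c * sc + d * sd - N * h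
  rcases sq_eq_sq_iff_eq_or_eq_neg.1 ss with e | e
  · rw [e] at sa sb sc sd
    exact Or.inl ⟨mul_left_cancel₀ hN sa, mul_left_cancel₀ hN sb, mul_left_cancel₀ hN sc,
      mul_left_cancel₀ hN sd⟩
  · rw [e] at sa sb sc sd
    exact Or.inr ⟨mul_left_cancel₀ hN (by linarith), mul_left_cancel₀ hN (by linarith),
      mul_left_cancel₀ hN (by linarith), mul_left_cancel₀ hN (by linarith)⟩

lemma ts_fib (v w : E4) (hv : v ≠ 0) (hA : ts_A v = ts_A w) (hB : ts_B v = ts_B w) :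
    w = v ∨ w = -v := by
  have hN : ‖v‖ ^ 2 = ‖w‖ ^ 2 := by rw [← ts_nB, hB, ts_nB]
  have h := ts_rank (v 0) (v 1) (v 2) (v 3) (w 0) (w 1) (w 2) (w 3) (‖v‖ ^ 2)
    (pow_ne_zero 2 (norm_ne_zero_iff.2 hv)) (ts_n4 v) (hN.trans (ts_n4 w))
    (congrArg (fun x : ts_E3 => x 0) hA) (congrArg (fun x : ts_E3 => x 1) hA)
    (congrArg (fun x : ts_E3 => x 2) hA) (congrArg (fun x : ts_E3 => x 0) hB)
    (congrArg (fun x : ts_E3 => x 1) hB) (congrArg (fun x : ts_E3 => x 2) hB)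
  rcases h with ⟨h0, h1, h2, h3⟩ | ⟨h0, h1, h2, h3⟩
  · left
    ext i
    fin_cases i
    exacts [h0, h1, h2, h3]
  · right
    ext i
    fin_cases i
    exacts [h0, h1, h2, h3]

lemma ts_onto (x y : ts_E3) (hx : ‖x‖ = 1) (hy : ‖y‖ = 1) (hxy : inner ℝ x y = 0) (ρ : ℝ)
    (hρ : 0 < ρ) : ∃ v : E4, ts_A v = ρ • x ∧ ts_B v = ρ • y := by
  have h1 := ts_n3 x
  have h2 := ts_n3 y
  rw [ts_i3] at hxy
  rw [hx] at h1
  rw [hy] at h2
  obtain ⟨L, hL, e1, e2⟩ := ts_quat ⟨0, x 0, x 1, x 2⟩ ⟨0, y 0, y 1, y 2⟩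
    (by ext <;> simp <;> linarith) (by ext <;> simp <;> linarith) (by ext <;> simp <;> linarith)
  have hp : 0 < L.re ^ 2 + L.imI ^ 2 + L.imJ ^ 2 + L.imK ^ 2 := by
    by_contra h0
    refine hL ?_
    ext <;> refine pow_eq_zero_iff two_ne_zero |>.1 (le_antisymm ?_ (sq_nonneg _)) <;>
      linarith [sq_nonneg L.re, sq_nonneg L.imI, sq_nonneg L.imJ, sq_nonneg L.imK]
  obtain ⟨t, ht⟩ : ∃ t : ℝ, ρ = t ^ 2 * (L.re ^ 2 + L.imI ^ 2 + L.imJ ^ 2 + L.imK ^ 2) :=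
    ⟨√(ρ / (L.re ^ 2 + L.imI ^ 2 + L.imJ ^ 2 + L.imK ^ 2)), by
      rw [Real.sq_sqrt (div_pos hρ hp).le, div_mul_cancel₀ _ hp.ne']⟩
  have a0 := congrArg (fun z : ts_H => z.re) e1
  have a1 := congrArg (fun z : ts_H => z.imI) e1
  have a2 := congrArg (fun z : ts_H => z.imJ) e1
  have a3 := congrArg (fun z : ts_H => z.imK) e1
  have b0 := congrArg (fun z : ts_H => z.re) e2
  have b1 := congrArg (fun z : ts_H => z.imI) e2
  have b2 := congrArg (fun z : ts_H => z.imJ) e2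
  have b3 := congrArg (fun z : ts_H => z.imK) e2
  simp only [QuaternionAlgebra.re_mul, QuaternionAlgebra.imI_mul, QuaternionAlgebra.imJ_mul,
    QuaternionAlgebra.imK_mul] at a0 a1 a2 a3 b0 b1 b2 b3
  refine ⟨!₂[t * L.re, t * L.imI, t * L.imJ, t * L.imK], ?_, ?_⟩
  · ext i
    fin_cases i <;> simp [ts_A, ht]
    · linear_combination t ^ 2 * (L.imI * a0 - L.re * a1 + L.imK * a2 - L.imJ * a3)
    · linear_combination t ^ 2 * (L.imJ * a0 - L.imK * a1 - L.re * a2 + L.imI * a3)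
    · linear_combination t ^ 2 * (L.imK * a0 + L.imJ * a1 - L.imI * a2 - L.re * a3)
  · ext i
    fin_cases i <;> simp [ts_B, ht]
    · linear_combination t ^ 2 * (L.imI * b0 - L.re * b1 + L.imK * b2 - L.imJ * b3)
    · linear_combination t ^ 2 * (L.imJ * b0 - L.imK * b1 - L.re * b2 + L.imI * b3)
    · linear_combination t ^ 2 * (L.imK * b0 + L.imJ * b1 - L.imI * b2 - L.re * b3)

open Classical in
/-- The end map. -/
def ts_Phi (v : E4) : TS :=
  if h : v = 0 then ⟨(EuclideanSpace.single 0 1, 0), by simp [H.tangentS2]⟩ else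
    ⟨((‖v‖ ^ 2)⁻¹ • ts_A v, ts_B v), by
      have : ‖v‖ ^ 2 ≠ 0 := pow_ne_zero 2 (norm_ne_zero_iff.2 h)
      refine ⟨?_, ?_⟩
      · rw [norm_smul, ts_nA, norm_inv, Real.norm_of_nonneg (sq_nonneg _), inv_mul_cancel₀ this]
      · rw [inner_smul_left, ts_AB, mul_zero]⟩

lemma ts_val (v : E4) (h : v ≠ 0) : (ts_Phi v).1 = ((‖v‖ ^ 2)⁻¹ • ts_A v, ts_B v) := by
  rw [ts_Phi, dif_neg h]

lemma ts_nn : (LinearIsometryEquiv.neg ℝ : E4 ≃ₗᵢ[ℝ] E4) * LinearIsometryEquiv.neg ℝ = 1 := by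
  ext v i
  simp

/-- The group of order two. -/
def ts_G : Subgroup (E4 ≃ₗᵢ[ℝ] E4) where
  carrier := {1, LinearIsometryEquiv.neg ℝ}
  mul_mem' := by rintro a b (rfl | rfl) (rfl | rfl) <;> simp [ts_nn]
  one_mem' := Or.inl rfl
  inv_mem' := by
    rintro a (rfl | rfl)
    · simp
    · exact Or.inr (inv_eq_of_mul_eq_one_right ts_nn)

lemma ts_ne {v : E4} (h : -v = v) : v = 0 := by
  have : (2 : ℝ) • v = 0 := by rw [two_smul]; nth_rewrite 1 [← h]; exact neg_add_cancel v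
  exact (smul_eq_zero.1 this).resolve_left two_ne_zero

lemma ts_card : Nat.card ts_G = 2 := by
  refine Set.ncard_pair fun h => ?_
  have h1 : -(EuclideanSpace.single 0 1 : E4) = EuclideanSpace.single 0 1 :=
    (congrArg (fun γ : E4 ≃ₗᵢ[ℝ] E4 => γ (EuclideanSpace.single 0 1)) h).symm
  simpa using congrArg (fun x : E4 => x 0) (ts_ne h1)

theorem sts : STS := by
  have hne : ∀ {r : ℝ} {v : E4}, 1 ≤ r → r < ‖v‖ → v ≠ 0 := fun h1 h2 =>
    norm_pos_iff.1 (by linarith)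
  refine ⟨ts_G, 1, ts_Phi, ⟨one_pos, Nat.finite_of_card_ne_zero (by rw [ts_card]; norm_num),
    ?_, ?_, fun v w hv hw => ⟨fun h => ?_, ?_⟩, fun r hr => ?_, fun K hK => ?_⟩, ts_card⟩
  · rintro γ (rfl | rfl) v hv h
    · rfl
    · rw [ts_ne h, norm_zero] at hv
      exact absurd hv zero_ne_one
  · rw [Topology.IsInducing.subtypeVal.continuousOn_iff]
    refine ContinuousOn.congr (f := fun v => ((‖v‖ ^ 2)⁻¹ • ts_A v, ts_B v)) ?_
      fun v hv => ts_val v (hne le_rfl hv)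
    exact ContinuousOn.prodMk (ContinuousOn.smul (ContinuousOn.inv₀
      (continuous_norm.pow 2).continuousOn fun v hv => pow_ne_zero 2
        (norm_ne_zero_iff.2 (hne le_rfl hv))) ts_cA.continuousOn) ts_cB.continuousOn
  · have h1 := congrArg Subtype.val h
    rw [ts_val v (hne le_rfl hv), ts_val w (hne le_rfl hw), Prod.mk.injEq] at h1
    have hN : ‖v‖ ^ 2 = ‖w‖ ^ 2 := by rw [← ts_nB, h1.2, ts_nB]
    rw [← hN] at h1
    have h2 := smul_right_injective ts_E3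
      (inv_ne_zero (pow_ne_zero 2 (norm_ne_zero_iff.2 (hne le_rfl hv)))) h1.1
    rcases ts_fib v w (hne le_rfl hv) h2 h1.2 with h3 | h3
    · exact ⟨1, Or.inl rfl, h3⟩
    · exact ⟨_, Or.inr rfl, h3⟩
  · rintro ⟨γ, rfl | rfl, h⟩
    · rw [h]; rfl
    · have h1 : w = -v := h
      refine Subtype.ext ?_
      rw [ts_val v (hne le_rfl hv), ts_val w (hne le_rfl hw), h1]
      simp [ts_A, ts_B]
  · have hc : IsClosed H.tangentS2 :=
      (isClosed_eq (by fun_prop) continuous_const).inter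
        (isClosed_eq (by fun_prop) continuous_const)
    have h1 := hc.isClosedEmbedding_subtypeVal.isCompact_preimage
      ((isCompact_closedBall (0 : ts_E3) 1).prod (isCompact_closedBall (0 : ts_E3) (r ^ 2)))
    have h2 : (ts_Phi '' {v | r < ‖v‖})ᶜ = Subtype.val ⁻¹'
        (Metric.closedBall (0 : ts_E3) 1 ×ˢ Metric.closedBall (0 : ts_E3) (r ^ 2)) := by
      ext y
      rw [mem_compl_iff, mem_preimage, mem_prod, mem_closedBall_zero_iff, mem_closedBall_zero_iff,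
        and_iff_right y.2.1.le, ← not_lt, not_iff_not]
      have h0 : 0 ≤ r := by linarith
      constructor
      · rintro ⟨v, hv, rfl⟩
        rw [ts_val v (hne hr hv), ts_nB]
        exact pow_lt_pow_left₀ hv h0 two_ne_zero
      · intro h
        have hρ : 0 < ‖y.1.2‖ := (sq_nonneg r).trans_lt h
        obtain ⟨v, hA, hB⟩ := ts_onto y.1.1 (‖y.1.2‖⁻¹ • y.1.2) y.2.1
          (norm_smul_inv_norm (norm_pos_iff.1 hρ)) (by rw [inner_smul_right, y.2.2, mul_zero]) _ hρ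
        rw [smul_inv_smul₀ hρ.ne'] at hB
        have hN : ‖v‖ ^ 2 = ‖y.1.2‖ := by rw [← ts_nB, hB]
        have hv : r < ‖v‖ := lt_of_pow_lt_pow_left₀ 2 (norm_nonneg _) (hN ▸ h)
        refine ⟨v, hv, Subtype.ext ?_⟩
        rw [ts_val v (hne hr hv), hA, hB, hN, inv_smul_smul₀ hρ.ne']
    rwa [h2]
  · obtain ⟨C, hC⟩ := (hK.image (f := fun y : TS => ‖y.1.2‖) (by fun_prop)).bddAbove
    refine ⟨max C 1, fun v hv h => ?_⟩
    have h1 := hC (mem_image_of_mem _ h)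
    have h2 := le_max_left C 1
    have h3 := le_max_right C 1
    simp only [ts_val v (hne h3 hv), ts_nB] at h1
    nlinarith

end

end Pool.Agent.MP_67f0e4_gt.D2
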