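import Pool.Agent.MP_67f0e4_gt.D2.Spec

/-! Row INJ: the fibres of the chart at infinity. -/

open scoped ComplexConjugate

namespace Pool.Agent.MP_67f0e4_gt.D2

theorem inj_uniq {l l' p : ℂ} {M : ℝ} (hM : 20 ≤ M) (hp : ‖p‖ ≤ M / 2) (hl : ‖l‖ ≤ 1 / 20)
    (hl' : ‖l'‖ ≤ 1 / 20)
    (e : l * M = -1 + l ^ 2 * conj p + (p + 1) * (2 * (l * conj l) - (l * conj l) ^ 2))
    (e' : l' * M = -1 + l' ^ 2 * conj p + (p + 1) * (2 * (l' * conj l') - (l' * conj l') ^ 2)) :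
    l = l' := by
  rw [Complex.mul_conj'] at e e'
  have h0 := norm_nonneg l
  have h0' := norm_nonneg l'
  have hd := abs_norm_sub_norm_le l l'
  have h1 : (l - l') * (M : ℂ) = (l - l') * (l + l') * conj p + (p + 1) *
      (((‖l‖ - ‖l'‖) * ((‖l‖ + ‖l'‖) * (2 - ‖l‖ ^ 2 - ‖l'‖ ^ 2)) : ℝ) : ℂ) := by
    push_cast
    linear_combination e - e'
  have h2 : ‖l + l'‖ ≤ 1 / 10 := (norm_add_le _ _).trans (by linarith)
  have h3 : ‖p + 1‖ ≤ M / 2 + 1 := (norm_add_le _ _).trans (by rw [norm_one]; linarith)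
  have h4 : |(‖l‖ + ‖l'‖) * (2 - ‖l‖ ^ 2 - ‖l'‖ ^ 2)| ≤ 1 / 5 := by
    rw [abs_le]
    constructor <;> nlinarith [sq_nonneg ‖l‖, sq_nonneg ‖l'‖]
  have h5 : ‖(l - l') * (l + l') * conj p‖ ≤ ‖l - l'‖ * (1 / 10) * (M / 2) := by
    rw [norm_mul, norm_mul, Complex.norm_conj]
    gcongr
  have h6 : ‖(p + 1) * (((‖l‖ - ‖l'‖) * ((‖l‖ + ‖l'‖) * (2 - ‖l‖ ^ 2 - ‖l'‖ ^ 2)) : ℝ) : ℂ)‖ ≤
      (M / 2 + 1) * (‖l - l'‖ * (1 / 5)) := by
    rw [norm_mul, Complex.norm_real, Real.norm_eq_abs, abs_mul]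
    gcongr
  have h7 : ‖l - l'‖ * M ≤ ‖l - l'‖ * (1 / 10) * (M / 2) + (M / 2 + 1) * (‖l - l'‖ * (1 / 5)) := by
    have := congrArg norm h1
    rw [norm_mul, Complex.norm_real, Real.norm_eq_abs, abs_of_nonneg (by linarith)] at this
    rw [this]
    exact (norm_add_le _ _).trans (add_le_add h5 h6)
  have h8 : ‖l - l'‖ ≤ 0 := by
    by_contra h
    have := mul_pos (not_le.1 h) (show 0 < M - 1 by linarith)
    have := not_le.1 h
    nlinarith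
  exact sub_eq_zero.1 (norm_le_zero_iff.1 h8)

theorem inj_alg {A B l x y : ℂ} (hx : x = A + l * conj B) (hy : y = B + l * conj A) :
    x - l * conj y = A * (1 - l * conj l) ∧ y - l * conj x = B * (1 - l * conj l) := by
  subst hx hy
  simp only [map_add, map_mul, Complex.conj_conj]
  constructor <;> ring

theorem inj_eq {A B l x y : ℂ} (hx : x = A + l * conj B) (hy : y = B + l * conj A)
    (h : x * y = A * B - 1) :
    l * ((Complex.normSq x + Complex.normSq y : ℝ) : ℂ) = -1 + l ^ 2 * conj (x * y) +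
      (x * y + 1) * (2 * (l * conj l) - (l * conj l) ^ 2) := by
  obtain ⟨h1, h2⟩ := inj_alg hx hy
  have h3 := congrArg₂ (· * ·) h1 h2
  rw [Complex.ofReal_add, ← Complex.mul_conj, ← Complex.mul_conj, map_mul]
  linear_combination -h3 + (1 - l * conj l) ^ 2 * h

theorem inj_root {n : ℕ} (hn : 1 ≤ n) {q q' : C2} (h1 : q.1 ^ n = q'.1 ^ n)
    (h2 : q.2 ^ n = q'.2 ^ n) (h3 : q.1 * q.2 = q'.1 * q'.2) :
    ∃ ζ : ℂ, ζ ^ n = 1 ∧ q' = (ζ * q.1, ζ⁻¹ * q.2) := by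
  have hn' : n ≠ 0 := by omega
  have key : ∀ a b : ℂ, a ^ n = b ^ n → a = 0 → b = 0 := fun a b h h0 => by
    rw [h0, zero_pow hn'] at h
    exact pow_eq_zero_iff hn' |>.1 h.symm
  by_cases a : q.1 = 0
  · have a' := key _ _ h1 a
    by_cases b : q.2 = 0
    · exact ⟨1, one_pow n, Prod.ext (by simp [a, a']) (by simp [b, key _ _ h2 b])⟩
    · have b' : q'.2 ≠ 0 := fun h => b (key _ _ h2.symm h)
      refine ⟨q.2 / q'.2, by rw [div_pow, h2, div_self (pow_ne_zero _ b')],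
        Prod.ext (by simp [a, a']) ?_⟩
      change q'.2 = (q.2 / q'.2)⁻¹ * q.2
      field_simp
  · have a' : q'.1 ≠ 0 := fun h => a (key _ _ h1.symm h)
    refine ⟨q'.1 / q.1, by rw [div_pow, h1, div_self (pow_ne_zero _ a')], Prod.ext ?_ ?_⟩
    · change q'.1 = q'.1 / q.1 * q.1
      field_simp
    · change q'.2 = (q'.1 / q.1)⁻¹ * q.2
      field_simp
      linear_combination -h3

theorem inj_pt {n : ℕ} (L : LamF n) {q : C2} (h : 40 ≤ NN n q) :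
    ‖lam n 1 q‖ ≤ 1 / 20 ∧ (Ph n 1 q).1 = q.1 ^ n + lam n 1 q * conj (q.2 ^ n) ∧
      (Ph n 1 q).2.1 = q.2 ^ n + lam n 1 q * conj (q.1 ^ n) ∧
      (Ph n 1 q).1 * (Ph n 1 q).2.1 = q.1 ^ n * q.2 ^ n - 1 := by
  have hm : ((1 : ℝ), q) ∈ Om n := by
    change 8 * |(1 : ℝ)| ^ n < NN n q
    rw [abs_one, one_pow]
    linarith
  refine ⟨(L.small 1 q hm).trans ?_, by rw [map_pow]; rfl, by rw [map_pow]; rfl, ?_⟩
  · rw [abs_one, one_pow, div_le_iff₀ (by linarith)]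
    linarith
  · rw [L.surf 1 q hm, Complex.ofReal_one, one_pow, ← mul_pow]
    rfl

theorem sinj : SINJ := by
  intro n hn L q q' h h' e
  obtain ⟨a1, a2, a3, a4⟩ := inj_pt L h
  obtain ⟨b1, b2, b3, b4⟩ := inj_pt L h'
  rw [← e] at b2 b3 b4
  have hM : 20 ≤ Complex.normSq (Ph n 1 q).1 + Complex.normSq (Ph n 1 q).2.1 := by
    have := L.size q h
    linarith
  have hp : ‖(Ph n 1 q).1 * (Ph n 1 q).2.1‖ ≤
      (Complex.normSq (Ph n 1 q).1 + Complex.normSq (Ph n 1 q).2.1) / 2 := by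
    rw [norm_mul, Complex.normSq_eq_norm_sq, Complex.normSq_eq_norm_sq]
    nlinarith [sq_nonneg (‖(Ph n 1 q).1‖ - ‖(Ph n 1 q).2.1‖)]
  have hl := inj_uniq hM hp a1 b1 (inj_eq a2 a3 a4) (inj_eq b2 b3 b4)
  rw [← hl] at b2 b3
  have h0 : 1 - lam n 1 q * conj (lam n 1 q) ≠ 0 := by
    rw [Complex.mul_conj', sub_ne_zero]
    intro h1
    have h2 : (1 : ℝ) = ‖lam n 1 q‖ ^ 2 := by exact_mod_cast h1
    nlinarith [norm_nonneg (lam n 1 q)]
  exact inj_root hn (mul_right_cancel₀ h0 ((inj_alg a2 a3).1.symm.trans (inj_alg b2 b3).1))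
    (mul_right_cancel₀ h0 ((inj_alg a2 a3).2.symm.trans (inj_alg b2 b3).2))
    (congrArg (fun u : C3 => u.2.2) e)

end Pool.Agent.MP_67f0e4_gt.D2
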