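import Pool.Agent.MP_67f0e4_gt.H.Defs
import Pool.Agent.MP_67f0e4_gt.K.Base

/-! Block D2/D3: the end of the surface `x y = z ^ n - 1`. Definitions and row statements that do
not use the manifold layer. -/

open scoped ContDiff Topology ComplexConjugate
open Filter Set

namespace Pool.Agent.MP_67f0e4_gt.D2

noncomputable section

abbrev E4 := EuclideanSpace ℝ (Fin 4)

abbrev C2 := ℂ × ℂ

abbrev C3 := ℂ × ℂ × ℂ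

/-- The surface. -/
abbrev XX (n : ℕ) : Type := ↥(H.surf n)

/-- The tangent bundle of the two sphere. -/
abbrev TS : Type := ↥H.tangentS2

/-- `ι` identifies Euclidean four space with the Hermitian plane. -/
def Iso (ι : E4 ≃L[ℝ] C2) : Prop :=
  ∀ v, ‖v‖ ^ 2 = Complex.normSq (ι v).1 + Complex.normSq (ι v).2

/-! Topology of an end. -/

/-- `Φ` presents the end of `N` as `{R < |v|} / Γ`. -/
structure IsEnd {N : Type} [TopologicalSpace N] (Γ : Subgroup (E4 ≃ₗᵢ[ℝ] E4)) (R : ℝ)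
    (Φ : E4 → N) : Prop where
  pos : 0 < R
  fin : Finite Γ
  free : ∀ γ ∈ Γ, ∀ v : E4, ‖v‖ = 1 → γ v = v → γ = 1
  cont : ContinuousOn Φ {v | R < ‖v‖}
  fib : ∀ v w, R < ‖v‖ → R < ‖w‖ → (Φ v = Φ w ↔ ∃ γ ∈ Γ, w = γ v)
  cocpt : ∀ r, R ≤ r → IsCompact (Φ '' {v | r < ‖v‖})ᶜ
  proper : ∀ K : Set N, IsCompact K → ∃ r, ∀ v, r < ‖v‖ → Φ v ∉ K

/-- The end map is open. -/
def SOPEN : Prop :=
  ∀ (N : Type) [TopologicalSpace N] [T2Space N] [LocallyCompactSpace N]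
    (Γ : Subgroup (E4 ≃ₗᵢ[ℝ] E4)) (R : ℝ) (Φ : E4 → N), IsEnd Γ R Φ →
    ∀ W : Set E4, IsOpen W → W ⊆ {v | R < ‖v‖} → IsOpen (Φ '' W)

/-- Maps from the outside of a ball to the end lift through the end map. -/
def SLIFT : Prop :=
  ∀ (N : Type) [TopologicalSpace N] [T2Space N] [LocallyCompactSpace N]
    (Γ : Subgroup (E4 ≃ₗᵢ[ℝ] E4)) (R : ℝ) (Φ : E4 → N), IsEnd Γ R Φ →
    ∀ (ρ : ℝ) (g : E4 → N), 0 < ρ → ContinuousOn g {v | ρ < ‖v‖} →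
      (∀ v, ρ < ‖v‖ → g v ∈ Φ '' {w | R < ‖w‖}) →
      ∃ G : E4 → E4, ContinuousOn G {v | ρ < ‖v‖} ∧
        ∀ v, ρ < ‖v‖ → R < ‖G v‖ ∧ Φ (G v) = g v

/-- The order of the group at infinity is a topological invariant. -/
def SEND : Prop :=
  ∀ (N N' : Type) [TopologicalSpace N] [T2Space N] [LocallyCompactSpace N] [TopologicalSpace N']
    (Γ Γ' : Subgroup (E4 ≃ₗᵢ[ℝ] E4)) (R R' : ℝ) (Φ : E4 → N) (Φ' : E4 → N'),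
    IsEnd Γ R Φ → IsEnd Γ' R' Φ' → Nonempty (N ≃ₜ N') → Nat.card Γ = Nat.card Γ'

/-- The end of the tangent bundle of the two sphere has a group of order two. -/
def STS : Prop :=
  ∃ (Γ : Subgroup (E4 ≃ₗᵢ[ℝ] E4)) (R : ℝ) (Φ : E4 → TS), IsEnd Γ R Φ ∧ Nat.card Γ = 2

/-- One end. -/
def SONE : Prop :=
  ∀ (N : Type) [TopologicalSpace N] (Γ : Subgroup (E4 ≃ₗᵢ[ℝ] E4)) (R : ℝ) (Φ : E4 → N),
    IsEnd Γ R Φ →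
    ∀ K : Set N, IsCompact K → ∃ L : Set N, IsCompact L ∧ K ⊆ L ∧ IsConnected Lᶜ

/-- The surface is connected. -/
def SCONN : Prop := ∀ n : ℕ, 1 ≤ n → ConnectedSpace (XX n)

/-- `Γ` is the cyclic group `(z₁, z₂) ↦ (ζ z₁, ζ⁻¹ z₂)`, `ζ ^ n = 1`. -/
structure GamF (n : ℕ) (ι : E4 ≃L[ℝ] C2) (Γ : Subgroup (E4 ≃ₗᵢ[ℝ] E4)) : Prop where
  card : Nat.card Γ = n
  cyc : IsCyclic Γ
  free : ∀ γ ∈ Γ, ∀ v : E4, ‖v‖ = 1 → γ v = v → γ = 1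
  orb : ∀ v w : E4, (∃ γ ∈ Γ, w = γ v) ↔
    ∃ ζ : ℂ, ζ ^ n = 1 ∧ ι w = (ζ * (ι v).1, ζ⁻¹ * (ι v).2)

def SGAM : Prop :=
  ∀ (n : ℕ) (ι : E4 ≃L[ℝ] C2), 1 ≤ n → Iso ι → ∃ Γ, GamF n ι Γ

/-! The chart at infinity. -/

def NN (n : ℕ) (q : C2) : ℝ := Complex.normSq q.1 ^ n + Complex.normSq q.2 ^ n

/-- The small root of `conj z ^ n * λ ^ 2 + N * λ + t ^ n = 0`, `z = q.1 * q.2`. -/
def lam (n : ℕ) (t : ℝ) (q : C2) : ℂ :=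
  -2 * (t : ℂ) ^ n / ((NN n q : ℂ) *
    (1 + (1 - 4 * conj (q.1 * q.2) ^ n * (t : ℂ) ^ n / (NN n q : ℂ) ^ 2) ^ (2⁻¹ : ℂ)))

/-- The chart at infinity of the surface `x y = z ^ n - t ^ n`. -/
def Ph (n : ℕ) (t : ℝ) (q : C2) : C3 :=
  (q.1 ^ n + lam n t q * conj q.2 ^ n, q.2 ^ n + lam n t q * conj q.1 ^ n, q.1 * q.2)

def Om (n : ℕ) : Set (ℝ × C2) := {a | 8 * |a.1| ^ n < NN n a.2}

structure LamF (n : ℕ) : Prop where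
  isOpen : IsOpen (Om n)
  smooth : ContDiffOn ℝ ∞ (fun a : ℝ × C2 => Ph n a.1 a.2) (Om n)
  quad : ∀ t q, (t, q) ∈ Om n →
    conj (q.1 * q.2) ^ n * lam n t q ^ 2 + (NN n q : ℂ) * lam n t q + (t : ℂ) ^ n = 0
  small : ∀ t q, (t, q) ∈ Om n → ‖lam n t q‖ ≤ 2 * |t| ^ n / NN n q
  surf : ∀ t q, (t, q) ∈ Om n →
    (Ph n t q).1 * (Ph n t q).2.1 = (Ph n t q).2.2 ^ n - (t : ℂ) ^ n
  homN : ∀ (c : ℝ) q, NN n (c • q) = (c ^ 2) ^ n * NN n q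
  hom : ∀ c : ℝ, 0 < c → ∀ t q, Ph n (c ^ 2 * t) (c • q) =
    (((c : ℂ)) ^ n * (Ph n t q).1, ((c : ℂ)) ^ n * (Ph n t q).2.1, ((c : ℂ)) ^ 2 * (Ph n t q).2.2)
  zero : ∀ q, Ph n 0 q = (q.1 ^ n, q.2 ^ n, q.1 * q.2)
  swap : ∀ t q, Ph n t (q.2, q.1) = ((Ph n t q).2.1, (Ph n t q).1, (Ph n t q).2.2)
  rot : ∀ ζ : ℂ, ζ ^ n = 1 → ∀ t q, Ph n t (ζ * q.1, ζ⁻¹ * q.2) = Ph n t q
  zle : ∀ q : C2, ‖q.1 * q.2‖ ^ n ≤ NN n q / 2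
  lower : ∀ q : C2, ((Complex.normSq q.1 + Complex.normSq q.2) / 2) ^ n ≤ NN n q
  upper : ∀ q : C2, NN n q ≤ (Complex.normSq q.1 + Complex.normSq q.2) ^ n
  size : ∀ q, 40 ≤ NN n q →
    NN n q / 2 ≤ Complex.normSq (Ph n 1 q).1 + Complex.normSq (Ph n 1 q).2.1

def SLAM : Prop := ∀ n : ℕ, 1 ≤ n → LamF n

def InjF (n : ℕ) : Prop :=
  ∀ q q' : C2, 40 ≤ NN n q → 40 ≤ NN n q' → Ph n 1 q = Ph n 1 q' →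
    ∃ ζ : ℂ, ζ ^ n = 1 ∧ q' = (ζ * q.1, ζ⁻¹ * q.2)

def SINJ : Prop := ∀ n : ℕ, 1 ≤ n → LamF n → InjF n

def SurF (n : ℕ) : Prop :=
  ∀ p : C3, p.1 * p.2.1 = p.2.2 ^ n - 1 → 80 ≤ Complex.normSq p.1 + Complex.normSq p.2.1 →
    ∃ q : C2, 40 ≤ NN n q ∧ Ph n 1 q = p

def SSUR : Prop := ∀ n : ℕ, 1 ≤ n → LamF n → SurF n

/-- The chart presents the end of the surface. -/
def SPHI : Prop :=
  ∀ (n : ℕ) (ι : E4 ≃L[ℝ] C2) (Γ : Subgroup (E4 ≃ₗᵢ[ℝ] E4)) (κ : ℝ), 1 ≤ n → Iso ι →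
    GamF n ι Γ → LamF n → InjF n → SurF n → 0 < κ →
    ∃ R₀ : ℝ, 0 < R₀ ∧ (∀ v : E4, R₀ < ‖v‖ → 40 ≤ NN n (κ • ι v)) ∧
      ∀ R, R₀ ≤ R → ∀ Φ : E4 → XX n, (∀ v, R < ‖v‖ → (Φ v).1 = Ph n 1 (κ • ι v)) → IsEnd Γ R Φ

/-! The Levi form and the decay of the metric. -/

/-- Multiplication by `i`. -/
def JJ : C2 →L[ℝ] C2 := (Complex.I • ContinuousLinearMap.id ℂ C2).restrictScalars ℝ

/-- `D² f (a, b) + D² f (i a, i b)`, four times the real part of the complex Hessian. -/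
def levL (f : C2 → ℝ) (q : C2) : C2 →L[ℝ] C2 →L[ℝ] ℝ :=
  fderiv ℝ (fderiv ℝ f) q + (fderiv ℝ (fderiv ℝ f) q).bilinearComp JJ JJ

structure LevF : Prop where
  apply : ∀ f q a b, levL f q a b = fderiv ℝ (fderiv ℝ f) q a b +
    fderiv ℝ (fderiv ℝ f) q (Complex.I • a) (Complex.I • b)
  bridge : ∀ (f : C2 → ℝ) q, ContDiffAt ℝ 2 f q → ∀ a b, K.lev f q a b = levL f q a b
  germ : ∀ (f g : C2 → ℝ) q, f =ᶠ[𝓝 q] g → levL f q = levL g q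
  mul : ∀ (c : ℝ) (f : C2 → ℝ) q, ContDiffAt ℝ 2 f q → ∀ a b,
    levL (fun u => c * f u) q a b = c * levL f q a b
  hol : ∀ (f : C2 → ℝ) (T : C2 → C2) u, ContDiffAt ℝ 2 f (T u) → AnalyticAt ℂ T u → ∀ a b,
    levL (fun w => f (T w)) u a b = levL f (T u) (fderiv ℝ T u a) (fderiv ℝ T u b)
  flat : ∀ q a b : C2, levL (fun u => Complex.normSq u.1 + Complex.normSq u.2) q a b =
    4 * ((a.1 * conj b.1).re + (a.2 * conj b.2).re)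
  smooth : ∀ (F : ℝ × C2 → ℝ) (a : ℝ × C2), ContDiffAt ℝ ∞ F a →
    ContDiffAt ℝ ∞ (fun b : ℝ × C2 => levL (fun u => F (b.1, u)) b.2) a

def SLEV : Prop := LevF

/-- What is used of the potential `pot t (x, z)` of the surface `x y = z ^ n - t ^ n` in the
coordinates `(x, z)`. -/
structure KF (n : ℕ) (pot : ℝ → C2 → ℝ) : Prop where
  smooth : ContDiffOn ℝ ∞ (fun a : ℝ × C2 => pot a.1 a.2) {a | a.2.1 ≠ 0}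
  hom : ∀ c : ℝ, 0 < c → ∀ (t : ℝ) (x z : ℂ), x ≠ 0 →
    pot (c ^ 2 * t) ((c : ℂ) ^ n * x, (c : ℂ) ^ 2 * z) = c ^ 2 * pot t (x, z)
  zero : ∀ q : C2, q.1 ≠ 0 →
    pot 0 (q.1 ^ n, q.1 * q.2) = n * (Complex.normSq q.1 + Complex.normSq q.2)
  axis : ∀ W : ℂ, pot 1 (Complex.exp W, 0) = 2 * n * Real.cosh (2 * W.re / n)
  rot : ∀ ζ : ℂ, ζ ^ n = 1 → ∀ x z : ℂ, x ≠ 0 → pot 1 (x, ζ * z) = pot 1 (x, z)
  circ : ∀ (t : ℝ) (u x z : ℂ), ‖u‖ = 1 → x ≠ 0 → pot t (u * x, z) = pot t (x, z)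

/-- The chart at infinity read in the coordinates `(x, z)`. -/
def PP (n : ℕ) (ι : E4 ≃L[ℝ] C2) (κ t : ℝ) (v : E4) : C2 :=
  ((Ph n t (κ • ι v)).1, (Ph n t (κ • ι v)).2.2)

/-- The metric in the chart at infinity. -/
def GG (n : ℕ) (pot : ℝ → C2 → ℝ) (ι : E4 ≃L[ℝ] C2) (κ t : ℝ) (v : E4) :
    E4 →L[ℝ] E4 →L[ℝ] ℝ :=
  (levL (pot t) (PP n ι κ t v)).bilinearComp (fderiv ℝ (PP n ι κ t) v)
    (fderiv ℝ (PP n ι κ t) v)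

def WW (n : ℕ) (ι : E4 ≃L[ℝ] C2) (κ : ℝ) : Set (ℝ × E4) :=
  {a | (a.1, κ • ι a.2) ∈ Om n ∧ (PP n ι κ a.1 a.2).1 ≠ 0}

structure GF (n : ℕ) (pot : ℝ → C2 → ℝ) (ι : E4 ≃L[ℝ] C2) (κ : ℝ) : Prop where
  isOpen : IsOpen (WW n ι κ)
  smooth : ContDiffOn ℝ ∞ (fun a : ℝ × E4 => GG n pot ι κ a.1 a.2) (WW n ι κ)
  zero : ∀ v, ((0 : ℝ), v) ∈ WW n ι κ → ∀ a b, GG n pot ι κ 0 v a b = inner ℝ a b
  hom : ∀ c : ℝ, 0 < c → ∀ t v, (t, v) ∈ WW n ι κ →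
    (c ^ 2 * t, c • v) ∈ WW n ι κ ∧ GG n pot ι κ (c ^ 2 * t) (c • v) = GG n pot ι κ t v

/-- Smoothness in scale and position. -/
def SGS : Prop :=
  ∀ (n : ℕ) (pot : ℝ → C2 → ℝ) (ι : E4 ≃L[ℝ] C2) (κ : ℝ), 1 ≤ n → LamF n → LevF → KF n pot →
    IsOpen (WW n ι κ) ∧ ContDiffOn ℝ ∞ (fun a : ℝ × E4 => GG n pot ι κ a.1 a.2) (WW n ι κ)

/-- The cone is flat. -/
def SGZ : Prop :=
  ∀ (n : ℕ) (pot : ℝ → C2 → ℝ) (ι : E4 ≃L[ℝ] C2) (κ : ℝ), 1 ≤ n → LamF n → LevF → KF n pot →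
    Iso ι → 0 < κ → 4 * n * κ ^ 2 = 1 →
    ∀ v, ((0 : ℝ), v) ∈ WW n ι κ → ∀ a b, GG n pot ι κ 0 v a b = inner ℝ a b

/-- Homogeneity. -/
def SGH : Prop :=
  ∀ (n : ℕ) (pot : ℝ → C2 → ℝ) (ι : E4 ≃L[ℝ] C2) (κ : ℝ), 1 ≤ n → LamF n → LevF → KF n pot →
    ∀ c : ℝ, 0 < c → ∀ t v, (t, v) ∈ WW n ι κ →
      (c ^ 2 * t, c • v) ∈ WW n ι κ ∧ GG n pot ι κ (c ^ 2 * t) (c • v) = GG n pot ι κ t v

/-- A smooth family that vanishes at scale zero is `O(t)` with all derivatives. -/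
def SSCALE : Prop :=
  ∀ (E F : Type) [NormedAddCommGroup E] [NormedSpace ℝ E] [NormedAddCommGroup F]
    [NormedSpace ℝ F] (G : ℝ × E → F) (W : Set (ℝ × E)) (K : Set E) (t₀ : ℝ),
    IsOpen W → ContDiffOn ℝ ∞ G W → IsCompact K → Icc 0 t₀ ×ˢ K ⊆ W →
    (∀ v, ((0 : ℝ), v) ∈ W → G (0, v) = 0) →
    ∀ k : ℕ, ∃ C : ℝ, ∀ t ∈ Icc 0 t₀, ∀ v ∈ K,
      ‖iteratedFDeriv ℝ k (fun w => G (t, w)) v‖ ≤ C * t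

/-- Decay of the metric where the first coordinate dominates. -/
def DecF (n : ℕ) (pot : ℝ → C2 → ℝ) (ι : E4 ≃L[ℝ] C2) (κ : ℝ) : Prop :=
  ∃ R₁ : ℝ, 0 < R₁ ∧
    (∀ v : E4, R₁ < ‖v‖ → ‖(ι v).2‖ ≤ ‖(ι v).1‖ → ((1 : ℝ), v) ∈ WW n ι κ ∧
      ∀ a : E4, a ≠ 0 → GG n pot ι κ 1 v a a ≠ 0) ∧
    ∀ (a b : E4) (k : ℕ), ∃ C : ℝ, ∀ v : E4, R₁ < ‖v‖ → ‖(ι v).2‖ ≤ ‖(ι v).1‖ →
      ‖iteratedFDeriv ℝ k (fun w => GG n pot ι κ 1 w a b - inner ℝ a b) v‖ ≤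
        C * ‖v‖ ^ (-(2 : ℝ) - k)

def SDEC : Prop :=
  ∀ (n : ℕ) (pot : ℝ → C2 → ℝ) (ι : E4 ≃L[ℝ] C2) (κ : ℝ), 1 ≤ n → LamF n → Iso ι → 0 < κ →
    GF n pot ι κ → DecF n pot ι κ

end

end Pool.Agent.MP_67f0e4_gt.D2
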